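import Mathlib
import Pool.Agent.TH869.LPD.Disc
import Pool.Agent.Q263.MD.Dig

/-!
Exponential sums over the integers with restricted digits.
-/

set_option autoImplicit false

open Finset

namespace Pool.Agent.Q263.CM

open Pool.Agent.H332R2.Lit (e e_add norm_e e_zero)
open Pool.Agent.Q263.MD (Dig nb nb_spec nb_digits card_Dig)

lemma one_add_e (y κ : ℝ) (hκ : 0 ≤ κ) (h : ∀ n : ℤ, κ ≤ |y - n|) : ‖1 + e y‖ ≤ 2 - 4 * κ ^ 2 := by
  have h1 := Pool.Agent.Q263.MD.one_add y κ hκ h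
  have e1 : e y = Complex.exp (2 * Real.pi * Complex.I * y) := by
    unfold e
    congr 1
    ring
  rw [e1]
  exact h1

/-- one digit -/
lemma digit_sum {b : ℕ} (hb : 2 ≤ b) (D : Finset ℕ) (hD : ∀ d ∈ D, d < b) (hD2 : 2 ≤ D.card)
    (Q : ℕ) (hQ : 1 ≤ Q) (hdQ : ∀ d, 1 ≤ d → d < b → d ∣ Q) (θ τ : ℝ) (hτ : 0 < τ)
    (h : ∀ n : ℤ, τ ≤ |Q * θ - n|) :
    ‖∑ d ∈ D, e (d * θ)‖ ≤ D.card * (1 - 4 * (τ / Q) ^ 2 / b) := by
  classical
  have hb0 : (0 : ℝ) < b := by exact_mod_cast (by omega : 0 < b)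
  have hQ0 : (0 : ℝ) < Q := by exact_mod_cast hQ
  obtain ⟨d1, hd1, d2, hd2, hlt⟩ : ∃ d1 ∈ D, ∃ d2 ∈ D, d1 < d2 := by
    obtain ⟨a, ha, c, hc, hac⟩ := Finset.one_lt_card.1 (by omega : 1 < D.card)
    rcases lt_or_gt_of_ne hac with h | h
    · exact ⟨a, ha, c, hc, h⟩
    · exact ⟨c, hc, a, ha, h⟩
  obtain ⟨f, hf1, rfl⟩ : ∃ f, 1 ≤ f ∧ d2 = d1 + f := ⟨d2 - d1, by omega, by omega⟩
  have hfb : f < b := by
    have := hD _ hd2
    omega
  have hf0 : (1 : ℝ) ≤ f := by exact_mod_cast hf1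
  obtain ⟨r, hr⟩ := hdQ f hf1 hfb
  have hr1 : 1 ≤ r := by
    rcases Nat.eq_zero_or_pos r with h0 | h0
    · rw [h0, mul_zero] at hr
      omega
    · exact h0
  have hr0 : (0 : ℝ) < r := by exact_mod_cast hr1
  have hpair : ‖e (d1 * θ) + e (((d1 + f : ℕ) : ℝ) * θ)‖ ≤ 2 - 4 * (τ / Q) ^ 2 := by
    have e1 : e (d1 * θ) + e (((d1 + f : ℕ) : ℝ) * θ) = e (d1 * θ) * (1 + e (f * θ)) := by
      push_cast
      rw [add_mul, e_add]
      ring
    rw [e1, norm_mul, norm_e, one_mul]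
    apply one_add_e _ _ (by positivity)
    intro n
    have h1 := h (r * n)
    have h2 : (Q : ℝ) * θ - ((r * n : ℤ) : ℝ) = r * (f * θ - n) := by
      rw [hr]
      push_cast
      ring
    rw [h2, abs_mul, abs_of_pos hr0] at h1
    rw [div_le_iff₀ hQ0]
    have h3 : (r : ℝ) ≤ Q := by
      rw [hr]
      push_cast
      nlinarith
    calc τ ≤ r * |f * θ - n| := h1
      _ ≤ Q * |f * θ - n| := mul_le_mul_of_nonneg_right h3 (abs_nonneg _)
      _ = _ := mul_comm _ _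
  have hne : d1 ≠ d1 + f := by omega
  have hsub : ({d1, d1 + f} : Finset ℕ) ⊆ D := by
    intro d hd
    rw [Finset.mem_insert, Finset.mem_singleton] at hd
    rcases hd with rfl | rfl
    · exact hd1
    · exact hd2
  have hsum : ∑ d ∈ D, e (d * θ) = (e (d1 * θ) + e (((d1 + f : ℕ) : ℝ) * θ)) +
      ∑ d ∈ D \ {d1, d1 + f}, e (d * θ) := by
    rw [← Finset.sum_pair (f := fun d : ℕ => e (d * θ)) hne, add_comm, Finset.sum_sdiff hsub]
  have hcard : (D \ {d1, d1 + f}).card = D.card - 2 := by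
    rw [Finset.card_sdiff_of_subset hsub, Finset.card_pair hne]
  have hrest : ‖∑ d ∈ D \ {d1, d1 + f}, e (d * θ)‖ ≤ (D.card : ℝ) - 2 := by
    refine (norm_sum_le _ _).trans ?_
    simp only [norm_e, Finset.sum_const, nsmul_eq_mul, mul_one]
    rw [hcard, Nat.cast_sub hD2]
    push_cast
    exact le_refl _
  rw [hsum]
  have hDb : (D.card : ℝ) ≤ b := by
    have h1 : D ⊆ range b := fun d hd => Finset.mem_range.2 (hD d hd)
    have h2 := Finset.card_le_card h1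
    rw [Finset.card_range] at h2
    exact_mod_cast h2
  have hfin : (D.card : ℝ) * (4 * (τ / Q) ^ 2 / b) ≤ 4 * (τ / Q) ^ 2 := by
    have e1 : (D.card : ℝ) * (4 * (τ / Q) ^ 2 / b) = (D.card / b) * (4 * (τ / Q) ^ 2) := by ring
    rw [e1]
    have h1 : (D.card : ℝ) / b ≤ 1 := by
      rw [div_le_one hb0]
      exact hDb
    have h2 : 0 ≤ 4 * (τ / Q) ^ 2 := by positivity
    nlinarith
  refine (norm_add_le _ _).trans ?_
  linarith

/-- the sum is a product -/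
lemma prod_sum {b k : ℕ} (D : Fin k → Finset ℕ) (hD : ∀ i, ∀ d ∈ D i, d < b) (y : ℝ) :
    ∑ m ∈ Dig b k D, e (m * y) = ∏ i : Fin k, ∑ d ∈ D i, e (d * ((b : ℝ) ^ (i : ℕ) * y)) := by
  classical
  rw [Finset.prod_univ_sum]
  symm
  apply Finset.sum_bij (fun d _ => nb b d)
  · intro d hd
    rw [Fintype.mem_piFinset] at hd
    obtain ⟨h1, h2⟩ := nb_spec (b := b) d (fun i => hD i _ (hd i))
    unfold Dig
    rw [Finset.mem_filter, Finset.mem_range]
    exact ⟨h1, fun i => by rw [h2 i]; exact hd i⟩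
  · intro d hd d' hd' heq
    rw [Fintype.mem_piFinset] at hd hd'
    funext i
    have h1 := (nb_spec (b := b) d (fun i => hD i _ (hd i))).2 i
    have h2 := (nb_spec (b := b) d' (fun i => hD i _ (hd' i))).2 i
    rw [← h1, ← h2, heq]
  · intro m hm
    unfold Dig at hm
    rw [Finset.mem_filter, Finset.mem_range] at hm
    refine ⟨fun i => m / b ^ (i : ℕ) % b, ?_, nb_digits hm.1⟩
    rw [Fintype.mem_piFinset]
    exact hm.2
  · intro d _
    have h1 : ∀ s : Finset (Fin k), e ((∑ i ∈ s, (d i : ℝ) * (b : ℝ) ^ (i : ℕ)) * y) =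
        ∏ i ∈ s, e ((d i : ℝ) * ((b : ℝ) ^ (i : ℕ) * y)) := by
      intro s
      induction s using Finset.induction_on with
      | empty => simp [e_zero]
      | insert a s ha ih =>
        rw [Finset.sum_insert ha, Finset.prod_insert ha, ← ih, add_mul, e_add, mul_assoc]
    have h2 := h1 Finset.univ
    rw [← h2]
    congr 1
    unfold nb
    push_cast
    rfl

/-- the Riesz product -/
theorem riesz {b k : ℕ} (hb : 2 ≤ b) (D : Fin k → Finset ℕ) (hD : ∀ i, ∀ d ∈ D i, d < b)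
    (hD2 : ∀ i, 2 ≤ (D i).card) (Q : ℕ) (hQ : 1 ≤ Q) (hdQ : ∀ d, 1 ≤ d → d < b → d ∣ Q)
    (τ : ℝ) (hτ : 0 < τ) (hτ1 : τ ≤ 1 / 2) (y : ℝ) (I : Finset ℕ)
    (hI : ∀ i ∈ I, i < k ∧ ∀ n : ℤ, τ ≤ |(b : ℝ) ^ i * (Q * y) - n|) :
    ‖∑ m ∈ Dig b k D, e (m * y)‖ ≤ (Dig b k D).card * (1 - 4 * (τ / Q) ^ 2 / b) ^ I.card := by
  classical
  have hQ1 : (1 : ℝ) ≤ Q := by exact_mod_cast hQ
  have hb2 : (2 : ℝ) ≤ b := by exact_mod_cast hb
  have hσ0 : 0 ≤ 1 - 4 * (τ / Q) ^ 2 / b := by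
    have h1 : τ / Q ≤ 1 / 2 := (div_le_self hτ.le hQ1).trans hτ1
    have h2 : (τ / Q) ^ 2 ≤ (1 / 2) ^ 2 := pow_le_pow_left₀ (by positivity) h1 2
    have h3 : 4 * (τ / Q) ^ 2 / b ≤ 4 * (τ / Q) ^ 2 := div_le_self (by positivity) (by linarith)
    linarith
  rw [prod_sum D hD, norm_prod]
  have h1 : ∏ i : Fin k, ‖∑ d ∈ D i, e (d * ((b : ℝ) ^ (i : ℕ) * y))‖ ≤
      ∏ i : Fin k, (((D i).card : ℝ) * (if (i : ℕ) ∈ I then 1 - 4 * (τ / Q) ^ 2 / b else 1)) := by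
    refine Finset.prod_le_prod (fun i _ => norm_nonneg _) fun i _ => ?_
    split_ifs with hi
    · refine digit_sum hb (D i) (hD i) (hD2 i) Q hQ hdQ _ τ hτ ?_
      intro n
      have h2 := (hI _ hi).2 n
      have e1 : (Q : ℝ) * ((b : ℝ) ^ (i : ℕ) * y) = (b : ℝ) ^ (i : ℕ) * (Q * y) := by ring
      rw [e1]
      exact h2
    · refine (norm_sum_le _ _).trans ?_
      simp only [norm_e, Finset.sum_const, nsmul_eq_mul, mul_one]
      exact le_refl _
  refine h1.trans (le_of_eq ?_)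
  rw [Finset.prod_mul_distrib, card_Dig D hD]
  push_cast
  congr 1
  rw [Fin.prod_univ_eq_prod_range (fun i => if i ∈ I then 1 - 4 * (τ / Q) ^ 2 / b else 1) k,
    Finset.prod_ite_mem, Finset.prod_const]
  congr 2
  exact Finset.inter_eq_right.2 fun i hi => Finset.mem_range.2 (hI i hi).1

/-- points near to integers -/
lemma run {b : ℕ} (hb : 2 ≤ b) (z : ℝ) (r : ℕ) : ∀ i0 : ℕ,
    (∀ i, i0 ≤ i → i < i0 + r → ∃ n : ℤ, |(b : ℝ) ^ i * z - n| < 1 / (2 * b)) →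
    ∃ n : ℤ, |(b : ℝ) ^ i0 * z - n| * (b : ℝ) ^ r ≤ 1 / 2 := by
  have hb0 : (0 : ℝ) < b := by exact_mod_cast (by omega : 0 < b)
  have hb1 : (1 : ℝ) ≤ b := by exact_mod_cast (by omega : 1 ≤ b)
  induction r with
  | zero =>
    intro i0 _
    refine ⟨round ((b : ℝ) ^ i0 * z), ?_⟩
    rw [pow_zero, mul_one]
    exact abs_sub_round _
  | succ r ih =>
    intro i0 h
    obtain ⟨n0, hn0⟩ := h i0 (le_refl _) (by omega)
    obtain ⟨n1, hn1⟩ := ih (i0 + 1) fun i h1 h2 => h i (by omega) (by omega)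
    have h1 : |(b : ℝ) ^ (i0 + 1) * z - b * n0| < 1 / 2 := by
      have e1 : (b : ℝ) ^ (i0 + 1) * z - b * n0 = b * ((b : ℝ) ^ i0 * z - n0) := by ring
      rw [e1, abs_mul, abs_of_pos hb0]
      rw [lt_div_iff₀ (by positivity)] at hn0
      linarith
    have h2 : |(b : ℝ) ^ (i0 + 1) * z - n1| ≤ 1 / 2 := by
      refine le_trans ?_ hn1
      exact le_mul_of_one_le_right (abs_nonneg _) (one_le_pow₀ hb1)
    have h3 : (b : ℤ) * n0 = n1 := by
      have h4 : |(((b : ℤ) * n0 - n1 : ℤ) : ℝ)| < 1 := by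
        have h5 : (((b : ℤ) * n0 - n1 : ℤ) : ℝ) =
            ((b : ℝ) ^ (i0 + 1) * z - n1) - ((b : ℝ) ^ (i0 + 1) * z - b * n0) := by
          push_cast
          ring
        rw [h5]
        refine lt_of_le_of_lt (abs_sub _ _) ?_
        linarith
      have h6 : |(b : ℤ) * n0 - n1| < 1 := by exact_mod_cast h4
      have h7 := Int.abs_lt_one_iff.1 h6
      linarith
    refine ⟨n0, ?_⟩
    have e1 : |(b : ℝ) ^ i0 * z - n0| * (b : ℝ) ^ (r + 1) =
        |(b : ℝ) ^ (i0 + 1) * z - n1| * (b : ℝ) ^ r := by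
      rw [← h3]
      push_cast
      have e2 : (b : ℝ) ^ (i0 + 1) * z - b * n0 = b * ((b : ℝ) ^ i0 * z - n0) := by ring
      rw [e2, abs_mul, abs_of_pos hb0]
      ring
    rw [e1]
    exact hn1

/-- many points which are not near to integers -/
lemma count {b : ℕ} (hb : 2 ≤ b) (z : ℝ) (T : ℕ → ℕ) (t : ℕ) (hT : ∀ j < t, T j ≤ T (j + 1))
    (h : ∀ j < t, ∀ n : ℤ, 1 / 2 < |(b : ℝ) ^ (T j) * z - n| * (b : ℝ) ^ (T (j + 1) - T j)) :
    ∃ I : Finset ℕ, I.card = t ∧ ∀ i ∈ I, i < T t ∧ ∀ n : ℤ, 1 / (2 * (b : ℝ)) ≤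
      |(b : ℝ) ^ i * z - n| := by
  classical
  induction t with
  | zero => exact ⟨∅, rfl, fun i hi => absurd hi (Finset.notMem_empty _)⟩
  | succ t ih =>
    obtain ⟨I, hI1, hI2⟩ := ih (fun j hj => hT j (by omega)) (fun j hj => h j (by omega))
    obtain ⟨i, hi1, hi2, hi3⟩ : ∃ i, T t ≤ i ∧ i < T (t + 1) ∧ ∀ n : ℤ, 1 / (2 * (b : ℝ)) ≤
        |(b : ℝ) ^ i * z - n| := by
      by_contra hcon
      push Not at hcon
      obtain ⟨n, hn⟩ := run hb z (T (t + 1) - T t) (T t) (by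
        intro i h1 h2
        have := hT t (by omega)
        exact hcon i h1 (by omega))
      exact absurd hn (not_le.2 (h t (by omega) n))
    have hni : i ∉ I := fun h1 => by
      have := (hI2 i h1).1
      omega
    refine ⟨insert i I, by rw [Finset.card_insert_of_notMem hni, hI1], ?_⟩
    intro j hj
    rw [Finset.mem_insert] at hj
    rcases hj with rfl | hj
    · exact ⟨hi2, hi3⟩
    · have h1 := (hI2 j hj).1
      have h2 := hT t (by omega)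
      exact ⟨by omega, (hI2 j hj).2⟩

end Pool.Agent.Q263.CM
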