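import Mathlib
import Pool.Agent.Q263.CM.Rie

/-!
From exponential sums over a set of multipliers to the distribution of the digits of most multiples.
-/

set_option autoImplicit false

open Finset

namespace Pool.Agent.Q263.CM

open Pool.Agent.H332R2.Lit (e e_add norm_e e_zero normSq_sum)

/-- second moment -/
lemma second (𝒟 : Finset ℕ) (x y : ℝ) (b u L : ℕ) (h : ℤ) (β : ℝ)
    (hc : ∀ l < L, ∀ l' < L, l ≠ l' →
      ‖∑ m ∈ 𝒟, e (m * (((h * ((b : ℤ) ^ (u + l) - (b : ℤ) ^ (u + l')) : ℤ) : ℝ) * x))‖ ≤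
        β * 𝒟.card) :
    ∑ m ∈ 𝒟, ‖∑ l ∈ range L, e (h * ((b : ℝ) ^ (u + l) * (y + m * x)))‖ ^ 2 ≤
      𝒟.card * (L + L ^ 2 * |β|) := by
  classical
  have h1 : ((∑ m ∈ 𝒟, ‖∑ l ∈ range L, e (h * ((b : ℝ) ^ (u + l) * (y + m * x)))‖ ^ 2 : ℝ) : ℂ) =
      ∑ l ∈ range L, ∑ l' ∈ range L,
        e (h * (b : ℝ) ^ (u + l) * y - h * (b : ℝ) ^ (u + l') * y) *
        ∑ m ∈ 𝒟, e (m * (((h * ((b : ℤ) ^ (u + l) - (b : ℤ) ^ (u + l')) : ℤ) : ℝ) * x)) := by
    rw [Complex.ofReal_sum]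
    have h2 : ∀ m ∈ 𝒟, ((‖∑ l ∈ range L, e (h * ((b : ℝ) ^ (u + l) * (y + m * x)))‖ ^ 2 : ℝ) : ℂ) =
        ∑ l ∈ range L, ∑ l' ∈ range L,
          e (h * (b : ℝ) ^ (u + l) * y - h * (b : ℝ) ^ (u + l') * y) *
          e (m * (((h * ((b : ℤ) ^ (u + l) - (b : ℤ) ^ (u + l')) : ℤ) : ℝ) * x)) := by
      intro m _
      rw [normSq_sum]
      refine Finset.sum_congr rfl fun l _ => Finset.sum_congr rfl fun l' _ => ?_
      rw [← e_add]
      congr 1
      push_cast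
      ring
    rw [Finset.sum_congr rfl h2, Finset.sum_comm]
    refine Finset.sum_congr rfl fun l _ => ?_
    rw [Finset.sum_comm]
    refine Finset.sum_congr rfl fun l' _ => ?_
    rw [Finset.mul_sum]
  have h0 : 0 ≤ ∑ m ∈ 𝒟, ‖∑ l ∈ range L, e (h * ((b : ℝ) ^ (u + l) * (y + m * x)))‖ ^ 2 :=
    Finset.sum_nonneg fun m _ => by positivity
  have h3 : ∑ m ∈ 𝒟, ‖∑ l ∈ range L, e (h * ((b : ℝ) ^ (u + l) * (y + m * x)))‖ ^ 2 =
      ‖((∑ m ∈ 𝒟, ‖∑ l ∈ range L, e (h * ((b : ℝ) ^ (u + l) * (y + m * x)))‖ ^ 2 : ℝ) : ℂ)‖ := by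
    rw [Complex.norm_real, Real.norm_of_nonneg h0]
  rw [h3, h1]
  have hterm : ∀ l ∈ range L, ∀ l' ∈ range L,
      ‖e (h * (b : ℝ) ^ (u + l) * y - h * (b : ℝ) ^ (u + l') * y) *
        ∑ m ∈ 𝒟, e (m * (((h * ((b : ℤ) ^ (u + l) - (b : ℤ) ^ (u + l')) : ℤ) : ℝ) * x))‖ ≤
      (if l = l' then (𝒟.card : ℝ) else 0) + |β| * 𝒟.card := by
    intro l hl l' hl'
    rw [norm_mul, norm_e, one_mul]
    split_ifs with heq
    · refine (norm_sum_le _ _).trans ?_
      simp only [norm_e, Finset.sum_const, nsmul_eq_mul, mul_one]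
      have : 0 ≤ |β| * (𝒟.card : ℝ) := mul_nonneg (abs_nonneg _) (Nat.cast_nonneg _)
      linarith
    · rw [zero_add]
      exact (hc l (Finset.mem_range.1 hl) l' (Finset.mem_range.1 hl') heq).trans
        (mul_le_mul_of_nonneg_right (le_abs_self _) (Nat.cast_nonneg _))
  calc _ ≤ ∑ l ∈ range L, ∑ l' ∈ range L, ‖e (h * (b : ℝ) ^ (u + l) * y - h * (b : ℝ) ^ (u + l') * y) *
        ∑ m ∈ 𝒟, e (m * (((h * ((b : ℤ) ^ (u + l) - (b : ℤ) ^ (u + l')) : ℤ) : ℝ) * x))‖ :=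
        (norm_sum_le _ _).trans (Finset.sum_le_sum fun l _ => norm_sum_le _ _)
    _ ≤ ∑ l ∈ range L, ∑ l' ∈ range L, ((if l = l' then (𝒟.card : ℝ) else 0) + |β| * 𝒟.card) :=
        Finset.sum_le_sum fun l hl => Finset.sum_le_sum fun l' hl' => hterm l hl l' hl'
    _ = ∑ l ∈ range L, ((𝒟.card : ℝ) + L * (|β| * 𝒟.card)) := by
        refine Finset.sum_congr rfl fun l hl => ?_
        rw [Finset.sum_add_distrib, Finset.sum_ite_eq, if_pos hl, Finset.sum_const,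
          Finset.card_range, nsmul_eq_mul]
    _ = _ := by
        rw [Finset.sum_const, Finset.card_range, nsmul_eq_mul]
        ring

/-- well distributed orbits in all bases `b ≤ P`, windows of the first `T` places, error `E` -/
def WD (P : ℕ) (T E : ℝ) (z : ℝ) : Prop :=
  ∀ b s N : ℕ, 2 ≤ b → b ≤ P → (s : ℝ) + N ≤ T → ∀ α γ : ℝ, 0 ≤ α → α ≤ γ → γ ≤ 1 →
    |((((range N).filter (fun i : ℕ => α ≤ Int.fract ((b : ℝ) ^ (s + i) * z) ∧
      Int.fract ((b : ℝ) ^ (s + i) * z) < γ)).card : ℕ) : ℝ) - (γ - α) * N| ≤ E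

open Classical in
/-- blocks suffice -/
lemma wd_of_blocks (P R L : ℕ) (hL : 1 ≤ L) (η : ℝ) (hη : 0 ≤ η) (z : ℝ)
    (h : ∀ b : ℕ, 2 ≤ b → b ≤ P → ∀ u < R, ∀ α γ : ℝ, 0 ≤ α → α ≤ γ → γ ≤ 1 →
      |((((range L).filter (fun i : ℕ => α ≤ Int.fract ((b : ℝ) ^ (u * L + i) * z) ∧
        Int.fract ((b : ℝ) ^ (u * L + i) * z) < γ)).card : ℕ) : ℝ) - (γ - α) * L| ≤ η) :
    WD P ((R * L : ℕ) : ℝ) (2 * (R * η + L)) z := by
  intro b s N hb hbP hsN α γ hα hαγ hγ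
  have hsN' : s + N ≤ R * L := by exact_mod_cast hsN
  set f : ℕ → ℝ := fun p => (if α ≤ Int.fract ((b : ℝ) ^ p * z) ∧
    Int.fract ((b : ℝ) ^ p * z) < γ then 1 else 0) - (γ - α) with hf
  have hf1 : ∀ p, |f p| ≤ 1 := by
    intro p
    simp only [hf]
    split_ifs
    · rw [abs_of_nonneg (by linarith)]
      linarith
    · rw [abs_le]
      constructor <;> linarith
  have hsum : ∀ (v n : ℕ), ∑ i ∈ range n, f (v + i) =
      ((((range n).filter (fun i : ℕ => α ≤ Int.fract ((b : ℝ) ^ (v + i) * z) ∧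
        Int.fract ((b : ℝ) ^ (v + i) * z) < γ)).card : ℕ) : ℝ) - (γ - α) * n := by
    intro v n
    simp only [hf]
    rw [Finset.sum_sub_distrib, Finset.card_filter, Finset.sum_const, Finset.card_range,
      nsmul_eq_mul]
    push_cast
    ring
  have hblock : ∀ q ≤ R, |∑ i ∈ range (q * L), f i| ≤ q * η := by
    intro q
    induction q with
    | zero => intro _; simp
    | succ q ih =>
      intro hq
      have h1 := ih (by omega)
      rw [Nat.succ_mul, Finset.sum_range_add]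
      have h2 := h b hb hbP q (by omega) α γ hα hαγ hγ
      rw [← hsum] at h2
      refine (abs_add_le _ _).trans ?_
      push_cast
      linarith
  have hpre : ∀ p ≤ R * L, |∑ i ∈ range p, f i| ≤ R * η + L := by
    intro p hp
    have h1 : p = (p / L) * L + p % L := by rw [mul_comm]; exact (Nat.div_add_mod p L).symm
    have hq : p / L ≤ R := Nat.div_le_of_le_mul (by rw [mul_comm]; exact hp)
    have h2 := hblock (p / L) hq
    rw [h1, Finset.sum_range_add]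
    refine (abs_add_le _ _).trans ?_
    have h3 : |∑ i ∈ range (p % L), f (p / L * L + i)| ≤ L := by
      refine (Finset.abs_sum_le_sum_abs _ _).trans ?_
      refine (Finset.sum_le_sum fun i _ => hf1 _).trans ?_
      rw [Finset.sum_const, Finset.card_range, nsmul_eq_mul, mul_one]
      exact_mod_cast (Nat.mod_lt p (by omega)).le
    have h4 : ((p / L : ℕ) : ℝ) * η ≤ R * η := by
      apply mul_le_mul_of_nonneg_right _ hη
      exact_mod_cast hq
    linarith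
  rw [← hsum]
  have h1 := Finset.sum_range_add f s N
  have h2 : ∑ i ∈ range N, f (s + i) = ∑ i ∈ range (s + N), f i - ∑ i ∈ range s, f i := by
    rw [h1]
    ring
  rw [h2]
  refine (abs_sub _ _).trans ?_
  have h3 := hpre (s + N) hsN'
  have h4 := hpre s (by omega)
  linarith

open Classical in
/-- the number of bad multipliers -/
theorem main (𝒟 : Finset ℕ) (x y : ℝ) (R L : ℕ) (hR : 1 ≤ R) (hL : 1 ≤ L) (β : ℝ) (hβ : 0 ≤ β)
    (hc : ∀ b : ℕ, 2 ≤ b → b ≤ R → ∀ u v : ℕ, u < v → v < R * L → v - u < L →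
      ∀ h : ℤ, h ≠ 0 → |h| < ((R ^ 3 : ℕ) : ℤ) →
      ‖∑ m ∈ 𝒟, e (m * (((h * ((b : ℤ) ^ v - (b : ℤ) ^ u) : ℤ) : ℝ) * x))‖ ≤ β * 𝒟.card) :
    ((𝒟.filter (fun m : ℕ => ¬ WD R ((R * L : ℕ) : ℝ) (12 * L) (y + m * x))).card : ℝ) ≤
      2 * R ^ 13 * (1 / L + β) * 𝒟.card := by
  have hR0 : (0 : ℝ) < R := by exact_mod_cast hR
  have hL0 : (0 : ℝ) < L := by exact_mod_cast hL
  set S : ℝ := L / R ^ 4 with hS
  have hS0 : 0 < S := by rw [hS]; positivity
  set Bd : ℕ × ℕ × ℤ → Finset ℕ := fun p =>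
    𝒟.filter (fun m : ℕ => S < ‖∑ l ∈ range L,
      e (p.2.2 * ((p.1 : ℝ) ^ (p.2.1 * L + l) * (y + m * x)))‖) with hBd
  set PP : Finset (ℕ × ℕ × ℤ) := (Icc 2 R) ×ˢ (range R) ×ˢ
    ((Ioo (-((R ^ 3 : ℕ) : ℤ)) ((R ^ 3 : ℕ) : ℤ)).erase 0) with hPP
  have hone : ∀ p ∈ PP, ((Bd p).card : ℝ) ≤ 𝒟.card * (R ^ 8 * (1 / L + β)) := by
    rintro ⟨b, u, h⟩ hp
    simp only [hPP, Finset.mem_product, Finset.mem_Icc, Finset.mem_range, Finset.mem_erase,
      Finset.mem_Ioo] at hp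
    obtain ⟨⟨hb1, hb2⟩, hu, hh0, hh1, hh2⟩ := hp
    have hhabs : |h| < ((R ^ 3 : ℕ) : ℤ) := abs_lt.2 ⟨hh1, hh2⟩
    have hsec := second 𝒟 x y b (u * L) L h β (by
      intro l hl l' hl' hne
      have hub : u * L + L ≤ R * L := by
        calc u * L + L = (u + 1) * L := by ring
          _ ≤ R * L := Nat.mul_le_mul_right L (by omega)
      rcases lt_or_gt_of_ne hne with h1 | h1
      · have h2 := hc b hb1 hb2 (u * L + l) (u * L + l') (by omega) (by omega) (by omega) (-h)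
          (by omega) (by rw [abs_neg]; exact hhabs)
        have e1 : (-h * ((b : ℤ) ^ (u * L + l') - (b : ℤ) ^ (u * L + l)) : ℤ) =
            h * ((b : ℤ) ^ (u * L + l) - (b : ℤ) ^ (u * L + l')) := by ring
        rw [e1] at h2
        exact h2
      · exact hc b hb1 hb2 (u * L + l') (u * L + l) (by omega) (by omega) (by omega) h hh0 hhabs)
    rw [abs_of_nonneg hβ] at hsec
    have h1 : ((Bd (b, u, h)).card : ℝ) * S ^ 2 ≤
        ∑ m ∈ 𝒟, ‖∑ l ∈ range L, e (h * ((b : ℝ) ^ (u * L + l) * (y + m * x)))‖ ^ 2 := by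
      calc ((Bd (b, u, h)).card : ℝ) * S ^ 2 = ∑ _m ∈ Bd (b, u, h), S ^ 2 := by
            rw [Finset.sum_const, nsmul_eq_mul]
        _ ≤ ∑ m ∈ Bd (b, u, h), ‖∑ l ∈ range L, e (h * ((b : ℝ) ^ (u * L + l) * (y + m * x)))‖ ^ 2 := by
            refine Finset.sum_le_sum fun m hm => ?_
            have h2 := (Finset.mem_filter.1 hm).2
            exact pow_le_pow_left₀ hS0.le h2.le 2
        _ ≤ _ := Finset.sum_le_sum_of_subset_of_nonneg (Finset.filter_subset _ _)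
            fun m _ _ => by positivity
    have h2 := h1.trans hsec
    have h3 : (𝒟.card : ℝ) * (L + L ^ 2 * β) = 𝒟.card * (R ^ 8 * (1 / L + β)) * S ^ 2 := by
      rw [hS]
      field_simp
    rw [h3] at h2
    exact le_of_mul_le_mul_right h2 (by positivity)
  have hcardP : (PP.card : ℝ) ≤ 2 * R ^ 5 := by
    rw [hPP, Finset.card_product, Finset.card_product, Nat.card_Icc, Finset.card_range]
    have h1 : ((Ioo (-((R ^ 3 : ℕ) : ℤ)) ((R ^ 3 : ℕ) : ℤ)).erase 0).card ≤ 2 * R ^ 3 := by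
      refine (Finset.card_erase_le).trans ?_
      rw [Int.card_Ioo]
      omega
    have h2 : (R + 1 - 2) * (R * ((Ioo (-((R ^ 3 : ℕ) : ℤ)) ((R ^ 3 : ℕ) : ℤ)).erase 0).card) ≤
        R * (R * (2 * R ^ 3)) :=
      Nat.mul_le_mul (by omega) (Nat.mul_le_mul_left R h1)
    calc _ ≤ ((R * (R * (2 * R ^ 3)) : ℕ) : ℝ) := by exact_mod_cast h2
      _ = _ := by push_cast; ring
  have hsub : 𝒟.filter (fun m : ℕ => ¬ WD R ((R * L : ℕ) : ℝ) (12 * L) (y + m * x)) ⊆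
      PP.biUnion Bd := by
    intro m hm
    rw [Finset.mem_filter] at hm
    by_contra hnot
    apply hm.2
    have hgood : ∀ b : ℕ, 2 ≤ b → b ≤ R → ∀ u < R, ∀ h : ℤ, h ≠ 0 → |h| < ((R ^ 3 : ℕ) : ℤ) →
        ‖∑ l ∈ range L, e (h * ((b : ℝ) ^ (u * L + l) * (y + m * x)))‖ ≤ S := by
      intro b hb1 hb2 u hu h hh0 hh1
      by_contra hcon
      push Not at hcon
      apply hnot
      rw [Finset.mem_biUnion]
      refine ⟨(b, u, h), ?_, ?_⟩
      · simp only [hPP, Finset.mem_product, Finset.mem_Icc, Finset.mem_range, Finset.mem_erase,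
          Finset.mem_Ioo]
        exact ⟨⟨hb1, hb2⟩, hu, hh0, (abs_lt.1 hh1).1, (abs_lt.1 hh1).2⟩
      · rw [hBd, Finset.mem_filter]
        exact ⟨hm.1, hcon⟩
    have h1 := wd_of_blocks R R L hL (5 * L / R) (by positivity) (y + m * x) (by
      intro b hb1 hb2 u hu α γ hα hαγ hγ
      have h2 := Pool.Agent.TH869.LPD.disc R hR (fun l => (b : ℝ) ^ (u * L + l) * (y + m * x)) L S
        hS0.le (fun h hh0 hh1 => hgood b hb1 hb2 u hu h hh0 hh1) α γ hα hαγ hγ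
      refine h2.trans (le_of_eq ?_)
      rw [hS]
      field_simp
      ring)
    have e1 : 2 * ((R : ℝ) * (5 * L / R) + L) = 12 * L := by
      field_simp
      ring
    rw [e1] at h1
    exact h1
  calc ((𝒟.filter (fun m : ℕ => ¬ WD R ((R * L : ℕ) : ℝ) (12 * L) (y + m * x))).card : ℝ)
      ≤ ((PP.biUnion Bd).card : ℝ) := by exact_mod_cast Finset.card_le_card hsub
    _ ≤ ((∑ p ∈ PP, (Bd p).card : ℕ) : ℝ) := by exact_mod_cast Finset.card_biUnion_le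
    _ = ∑ p ∈ PP, ((Bd p).card : ℝ) := by push_cast; rfl
    _ ≤ ∑ _p ∈ PP, (𝒟.card * (R ^ 8 * (1 / L + β)) : ℝ) := Finset.sum_le_sum hone
    _ = PP.card * (𝒟.card * (R ^ 8 * (1 / L + β))) := by rw [Finset.sum_const, nsmul_eq_mul]
    _ ≤ (2 * R ^ 5) * (𝒟.card * (R ^ 8 * (1 / L + β))) := by
        apply mul_le_mul_of_nonneg_right hcardP
        positivity
    _ = _ := by ring

end Pool.Agent.Q263.CM
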