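import Mathlib
import Pool.Agent.Q263.CM.Abs

/-!
Numbers which are not Liouville numbers: the first `k ^ θ` digits of the multiples by integers with
`k` restricted digits.
-/

set_option autoImplicit false

open Finset Filter Topology

namespace Pool.Agent.Q263.CM

open Pool.Agent.H332R2.Lit (e e_add norm_e e_zero normSq_sum)
open Pool.Agent.Q263.MD (Dig)

/-- irrationality measure -/
lemma measure_of (x : ℝ) (hirr : Irrational x) (hL : ¬ Liouville x) :
    ∃ κ C : ℕ, 1 ≤ κ ∧ 1 ≤ C ∧ ∀ q : ℕ, 1 ≤ q → ∀ p : ℤ, 1 ≤ C * (q : ℝ) ^ κ * |q * x - p| := by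
  unfold Liouville at hL
  push Not at hL
  obtain ⟨n, hn⟩ := hL
  set d := |x - round x| with hd
  have hd0 : 0 < d := by
    rw [hd, abs_pos, sub_ne_zero]
    exact hirr.ne_int _
  obtain ⟨C, hC⟩ := exists_nat_gt (1 / d)
  have hC0 : (0 : ℝ) < C := lt_trans (by positivity) hC
  refine ⟨n + 1, max C 1, by omega, le_max_right _ _, fun q hq p => ?_⟩
  have hC1 : (1 : ℝ) ≤ ((max C 1 : ℕ) : ℝ) := by exact_mod_cast le_max_right _ _
  rcases Nat.lt_or_ge 1 q with h1 | h1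
  · have hq0 : (0 : ℝ) < q := by exact_mod_cast hq
    have h2 := hn p q (by exact_mod_cast h1) (by
      have := hirr.ne_rat ((p : ℚ) / (q : ℚ))
      push_cast at this ⊢
      exact this)
    push_cast at h2
    have h3 : |(q : ℝ) * x - p| = q * |x - p / q| := by
      rw [← abs_of_pos hq0, ← abs_mul, abs_of_pos hq0]
      congr 1
      field_simp
    have h4 : 1 ≤ (q : ℝ) ^ n * |x - p / q| := by
      rw [div_le_iff₀ (by positivity)] at h2
      linarith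
    have hq1 : (1 : ℝ) ≤ q := by exact_mod_cast hq
    rw [h3, pow_succ]
    have h5 : (q : ℝ) ^ n * |x - p / q| ≤ (q : ℝ) ^ n * q * (q * |x - p / q|) := by
      have h6 : 0 ≤ (q : ℝ) ^ n * |x - p / q| := by positivity
      have h7 : (1 : ℝ) ≤ q * q := by nlinarith
      calc (q : ℝ) ^ n * |x - p / q| ≤ (q : ℝ) ^ n * |x - p / q| * (q * q) :=
            le_mul_of_one_le_right h6 h7
        _ = _ := by ring
    calc (1 : ℝ) ≤ (q : ℝ) ^ n * q * (q * |x - p / q|) := h4.trans h5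
      _ ≤ ((max C 1 : ℕ) : ℝ) * ((q : ℝ) ^ n * q) * (q * |x - p / q|) := by
          have h8 : 0 ≤ (q : ℝ) ^ n * q * (q * |x - p / q|) := by positivity
          nlinarith
  · have hq1 : q = 1 := by omega
    rw [hq1]
    push_cast
    rw [one_pow, mul_one, one_mul]
    have h2 : d ≤ |x - p| := round_le x p
    have h3 : 1 < C * d := by
      rw [div_lt_iff₀ hd0] at hC
      exact hC
    have h4 : (C : ℝ) ≤ max (C : ℝ) 1 := le_max_left _ _
    calc (1 : ℝ) ≤ C * d := h3.le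
      _ ≤ max (C : ℝ) 1 * |x - p| := mul_le_mul h4 h2 hd0.le (by positivity)

/-- decay of the exponential sums -/
theorem decay (x : ℝ) (κ C : ℕ) (hκ : 1 ≤ κ) (hC : 1 ≤ C)
    (hx : ∀ q : ℕ, 1 ≤ q → ∀ p : ℤ, 1 ≤ C * (q : ℝ) ^ κ * |q * x - p|)
    {b : ℕ} (hb : 2 ≤ b) (Q : ℕ) (hQ : 1 ≤ Q) (hdQ : ∀ d, 1 ≤ d → d < b → d ∣ Q)
    (k t a : ℕ) (D : Fin k → Finset ℕ) (hD : ∀ i, ∀ d ∈ D i, d < b) (hD2 : ∀ i, 2 ≤ (D i).card)
    (G : ℤ) (hG : G ≠ 0) (hGa : C * Q * G.natAbs ≤ b ^ a) (hk : (2 * κ + 1) ^ t * (a + 1) ≤ k) :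
    ‖∑ m ∈ Dig b k D, e (m * (G * x))‖ ≤
      (Dig b k D).card * (1 - 4 * ((1 / (2 * (b : ℝ))) / Q) ^ 2 / b) ^ t := by
  have hb0 : (0 : ℝ) < b := by exact_mod_cast (by omega : 0 < b)
  have hb2 : (2 : ℝ) ≤ b := by exact_mod_cast hb
  set T : ℕ → ℕ := fun j => (2 * κ + 1) ^ j * (a + 1) with hT
  have hTs : ∀ j, T (j + 1) = T j + 2 * κ * T j := by
    intro j
    simp only [hT, pow_succ]
    ring
  have hTa : ∀ j, a ≤ T j := by
    intro j
    simp only [hT]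
    have h1 : 1 ≤ (2 * κ + 1) ^ j := Nat.one_le_pow _ _ (by omega)
    calc a ≤ 1 * (a + 1) := by omega
      _ ≤ _ := Nat.mul_le_mul_right _ h1
  have hGn : 1 ≤ G.natAbs := by omega
  obtain ⟨I, hI1, hI2⟩ := count hb ((Q : ℝ) * (G * x)) T t (fun j _ => by rw [hTs]; omega) (by
    intro j hj n
    have hsign : ∃ p : ℤ, |(b : ℝ) ^ (T j) * (Q * (G * x)) - n| =
        |((b ^ (T j) * Q * G.natAbs : ℕ) : ℝ) * x - p| := by
      rcases Int.natAbs_eq G with h1 | h1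
      · refine ⟨n, ?_⟩
        congr 2
        have h2 : (G : ℝ) = G.natAbs := by
          have h3 : (G : ℝ) = ((G.natAbs : ℤ) : ℝ) := by rw [← h1]
          rw [h3, Int.cast_natCast]
        rw [h2]
        push_cast
        ring
      · refine ⟨-n, ?_⟩
        have h2 : (G : ℝ) = -(G.natAbs : ℝ) := by
          have h3 : (G : ℝ) = ((-(G.natAbs : ℤ) : ℤ) : ℝ) := by rw [← h1]
          rw [h3, Int.cast_neg, Int.cast_natCast]
        rw [h2, ← abs_neg]
        congr 1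
        push_cast
        ring
    obtain ⟨p, hp⟩ := hsign
    rw [hp]
    have h1 := hx (b ^ (T j) * Q * G.natAbs) (Nat.mul_pos (Nat.mul_pos (Nat.pow_pos (by omega)) hQ)
      hGn) p
    have h2 : C * (b ^ (T j) * Q * G.natAbs) ^ κ ≤ b ^ (T (j + 1) - T j) := by
      have h3 : T (j + 1) - T j = 2 * κ * T j := by
        rw [hTs]
        omega
      rw [h3]
      calc C * (b ^ (T j) * Q * G.natAbs) ^ κ ≤ C ^ κ * (b ^ (T j) * Q * G.natAbs) ^ κ :=
            Nat.mul_le_mul_right _ (Nat.le_self_pow (by omega) C)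
        _ = (b ^ (T j) * (C * Q * G.natAbs)) ^ κ := by rw [← mul_pow]; ring
        _ ≤ (b ^ (T j) * b ^ (T j)) ^ κ :=
            Nat.pow_le_pow_left (Nat.mul_le_mul_left _
              (hGa.trans (Nat.pow_le_pow_right (by omega) (hTa j)))) κ
        _ = b ^ (2 * κ * T j) := by
            rw [← pow_add, ← pow_mul]
            congr 1
            ring
    have h3 : (C : ℝ) * ((b ^ (T j) * Q * G.natAbs : ℕ) : ℝ) ^ κ ≤ (b : ℝ) ^ (T (j + 1) - T j) := by
      exact_mod_cast h2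
    have h4 := mul_le_mul_of_nonneg_right h3
      (abs_nonneg (((b ^ (T j) * Q * G.natAbs : ℕ) : ℝ) * x - p))
    rw [mul_comm] at h4
    rw [mul_comm] at h1
    nlinarith)
  have h1 := riesz hb D hD hD2 Q hQ hdQ (1 / (2 * b)) (by positivity) (by
    apply one_div_le_one_div_of_le (by norm_num)
    linarith) ((G : ℝ) * x) I (fun i hi => ⟨lt_of_lt_of_le (hI2 i hi).1 hk, (hI2 i hi).2⟩)
  rw [hI1] at h1
  exact h1

/-- the size of the multipliers -/
lemma size (C Q R L : ℕ) (b u v : ℕ) (hb : 2 ≤ b) (hbR : b ≤ R) (huv : u < v) (hv : v < R * L)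
    (h : ℤ) (hh0 : h ≠ 0) (hh : |h| < ((R ^ 3 : ℕ) : ℤ)) :
    (h * ((b : ℤ) ^ v - (b : ℤ) ^ u)) ≠ 0 ∧
    C * Q * (h * ((b : ℤ) ^ v - (b : ℤ) ^ u)).natAbs ≤ 2 ^ (C * Q + (3 * R + R ^ 2 * L)) := by
  have h1 : b ^ u < b ^ v := Nat.pow_lt_pow_right (by omega) huv
  have h2 : ((b : ℤ) ^ v - (b : ℤ) ^ u) = ((b ^ v - b ^ u : ℕ) : ℤ) := by
    rw [Nat.cast_sub h1.le]
    push_cast
    rfl
  refine ⟨?_, ?_⟩
  · apply mul_ne_zero hh0
    rw [h2]
    have : b ^ v - b ^ u ≠ 0 := by omega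
    exact_mod_cast this
  · rw [Int.natAbs_mul, h2, Int.natAbs_natCast]
    have h3 : h.natAbs ≤ R ^ 3 := by
      have : (h.natAbs : ℤ) < ((R ^ 3 : ℕ) : ℤ) := by rw [Int.natCast_natAbs]; exact hh
      have h4 : h.natAbs < R ^ 3 := by exact_mod_cast this
      exact h4.le
    have h4 : b ^ v - b ^ u ≤ R ^ (R * L) := by
      calc b ^ v - b ^ u ≤ b ^ v := Nat.sub_le _ _
        _ ≤ R ^ v := Nat.pow_le_pow_left hbR v
        _ ≤ R ^ (R * L) := Nat.pow_le_pow_right (by omega) hv.le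
    have h5 : R ≤ 2 ^ R := Nat.lt_two_pow_self.le
    have h6 : C * Q ≤ 2 ^ (C * Q) := Nat.lt_two_pow_self.le
    calc C * Q * (h.natAbs * (b ^ v - b ^ u)) ≤ 2 ^ (C * Q) * (R ^ 3 * R ^ (R * L)) :=
          Nat.mul_le_mul h6 (Nat.mul_le_mul h3 h4)
      _ ≤ 2 ^ (C * Q) * ((2 ^ R) ^ 3 * (2 ^ R) ^ (R * L)) :=
          Nat.mul_le_mul_left _ (Nat.mul_le_mul (Nat.pow_le_pow_left h5 3)
            (Nat.pow_le_pow_left h5 _))
      _ = _ := by
          rw [← pow_mul, ← pow_mul, ← pow_add, ← pow_add]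
          congr 1
          ring

end Pool.Agent.Q263.CM
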