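import Mathlib
import Pool.Agent.Q263.CM.NL

/-!
Numbers which are not Liouville numbers: conclusion.
-/

set_option autoImplicit false
set_option maxHeartbeats 4000000

open Finset Filter Topology

namespace Pool.Agent.Q263.CM

open Pool.Agent.H332R2.Lit (e e_add norm_e e_zero normSq_sum)
open Pool.Agent.Q263.MD (Dig)

/-- well distributed orbits in all bases `b ≤ P`, windows of the first `T` places, error `E` -/
def WDR (P T E : ℝ) (z : ℝ) : Prop :=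
  ∀ b s N : ℕ, 2 ≤ b → (b : ℝ) ≤ P → (s : ℝ) + N ≤ T → ∀ α γ : ℝ, 0 ≤ α → α ≤ γ → γ ≤ 1 →
    |((((range N).filter (fun i : ℕ => α ≤ Int.fract ((b : ℝ) ^ (s + i) * z) ∧
      Int.fract ((b : ℝ) ^ (s + i) * z) < γ)).card : ℕ) : ℝ) - (γ - α) * N| ≤ E

lemma wdr_of {P : ℕ} {T E P' T' E' z : ℝ} (h : WD P T E z) (hP : P' ≤ P) (hT : T' ≤ T)
    (hE : E ≤ E') : WDR P' T' E' z := by
  intro b s N hb hbP hsN α γ hα hαγ hγ
  refine (h b s N hb ?_ (hsN.trans hT) α γ hα hαγ hγ).trans hE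
  exact_mod_cast hbP.trans hP

lemma sig_bounds (b Q : ℕ) (hb : 2 ≤ b) (hQ : 1 ≤ Q) :
    0 < 1 - 4 * ((1 / (2 * (b : ℝ))) / Q) ^ 2 / b ∧
      1 - 4 * ((1 / (2 * (b : ℝ))) / Q) ^ 2 / b < 1 := by
  have hb2 : (2 : ℝ) ≤ b := by exact_mod_cast hb
  have hQ1 : (1 : ℝ) ≤ Q := by exact_mod_cast hQ
  constructor
  · have h1 : (1 / (2 * (b : ℝ))) / Q ≤ 1 / 4 := by
      refine (div_le_self (by positivity) hQ1).trans ?_
      apply one_div_le_one_div_of_le (by norm_num)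
      linarith
    have h2 : ((1 / (2 * (b : ℝ))) / Q) ^ 2 ≤ (1 / 4) ^ 2 := pow_le_pow_left₀ (by positivity) h1 2
    have h3 : 4 * ((1 / (2 * (b : ℝ))) / Q) ^ 2 / b ≤ 4 * ((1 / (2 * (b : ℝ))) / Q) ^ 2 :=
      div_le_self (by positivity) (by linarith)
    linarith
  · have : 0 < 4 * ((1 / (2 * (b : ℝ))) / Q) ^ 2 / b := by positivity
    linarith

open Classical in
theorem nl_main (x : ℝ) (hirr : Irrational x) (hL : ¬ Liouville x) {b : ℕ} (hb : 2 ≤ b) (θ : ℝ)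
    (hθ0 : 0 < θ) (hθ1 : θ < 1) :
    ∃ c : ℝ, 0 < c ∧ ∃ k0 : ℕ, ∀ k : ℕ, k0 ≤ k → ∀ D : Fin k → Finset ℕ,
      (∀ i, ∀ d ∈ D i, d < b) → (∀ i, 2 ≤ (D i).card) → ∀ y : ℝ,
      (((Dig b k D).filter (fun m : ℕ => ¬ WDR ((k : ℝ) ^ c) ((k : ℝ) ^ θ) ((k : ℝ) ^ (θ - c))
        (y + m * x))).card : ℝ) ≤ (k : ℝ) ^ (-c) * (Dig b k D).card := by
  obtain ⟨κ, C, hκ, hC, hx⟩ := measure_of x hirr hL
  obtain ⟨Q, hQdef⟩ : ∃ Q : ℕ, Q = b.factorial := ⟨_, rfl⟩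
  have hQ : 1 ≤ Q := by rw [hQdef]; exact Nat.factorial_pos b
  have hdQ : ∀ d, 1 ≤ d → d < b → d ∣ Q := by
    intro d h1 h2
    rw [hQdef]
    exact Nat.dvd_factorial (by omega) h2.le
  obtain ⟨hσ0, hσ1⟩ := sig_bounds b Q hb hQ
  obtain ⟨σ, hσ⟩ : ∃ σ : ℝ, σ = 1 - 4 * ((1 / (2 * (b : ℝ))) / Q) ^ 2 / b := ⟨_, rfl⟩
  rw [← hσ] at hσ0 hσ1
  have hlσ : Real.log σ < 0 := Real.log_neg hσ0 hσ1
  have hκR : (1 : ℝ) ≤ κ := by exact_mod_cast hκ
  obtain ⟨lK, hlK⟩ : ∃ lK : ℝ, lK = Real.log (2 * κ + 1) := ⟨_, rfl⟩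
  have hlK0 : 0 < lK := by
    rw [hlK]
    apply Real.log_pos
    linarith
  obtain ⟨g, hg⟩ : ∃ g : ℝ, g = (1 - θ) / (4 * lK) := ⟨_, rfl⟩
  have hg0 : 0 < g := by
    rw [hg]
    apply div_pos (by linarith) (by positivity)
  have hglK : g * lK = (1 - θ) / 4 := by
    rw [hg]
    field_simp
  obtain ⟨c5, hc5⟩ : ∃ c5 : ℝ, c5 = -(g * Real.log σ) := ⟨_, rfl⟩
  have hc50 : 0 < c5 := by
    rw [hc5]
    nlinarith
  obtain ⟨c1, hc1⟩ : ∃ c1 : ℝ, c1 = min θ (min (1 - θ) c5) / 40 := ⟨_, rfl⟩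
  have hc10 : 0 < c1 := by
    rw [hc1]
    have : 0 < min θ (min (1 - θ) c5) := lt_min hθ0 (lt_min (by linarith) hc50)
    linarith
  have hc1a : 40 * c1 ≤ θ := by
    rw [hc1]
    have := min_le_left θ (min (1 - θ) c5)
    linarith
  have hc1b : 40 * c1 ≤ 1 - θ := by
    rw [hc1]
    have := (min_le_right θ (min (1 - θ) c5)).trans (min_le_left _ _)
    linarith
  have hc1c : 40 * c1 ≤ c5 := by
    rw [hc1]
    have := (min_le_right θ (min (1 - θ) c5)).trans (min_le_right _ _)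
    linarith
  obtain ⟨M0, hM0⟩ : ∃ M0 : ℝ, M0 = (C * Q : ℕ) + 2 * (1 + 1 / σ) + 36 := ⟨_, rfl⟩
  have hev : ∀ᶠ k : ℕ in atTop, M0 ≤ (k : ℝ) ^ (c1 / 2) :=
    ((tendsto_rpow_atTop (by positivity : 0 < c1 / 2)).comp
      tendsto_natCast_atTop_atTop).eventually_ge_atTop M0
  obtain ⟨k1, hk1⟩ := eventually_atTop.1 hev
  refine ⟨c1 / 2, by positivity, max k1 1, fun k hk D hD hD2 y => ?_⟩
  have hkM := hk1 k ((le_max_left _ _).trans hk)
  have hk1' : 1 ≤ k := (le_max_right _ _).trans hk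
  obtain ⟨K, hK⟩ : ∃ K : ℝ, K = (k : ℝ) := ⟨_, rfl⟩
  rw [← hK] at hkM ⊢
  have hK1 : 1 ≤ K := by rw [hK]; exact_mod_cast hk1'
  have hK0 : 0 < K := by linarith
  have hmono : ∀ r s : ℝ, r ≤ s → K ^ r ≤ K ^ s := fun r s h =>
    Real.rpow_le_rpow_of_exponent_le hK1 h
  have hone : ∀ r : ℝ, 0 ≤ r → 1 ≤ K ^ r := fun r h => Real.one_le_rpow hK1 h
  have hpos : ∀ r : ℝ, 0 < K ^ r := fun r => Real.rpow_pos_of_pos hK0 r
  have hinv : 0 < 1 / σ := by positivity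
  have hCQ0 : (0 : ℝ) ≤ ((C * Q : ℕ) : ℝ) := Nat.cast_nonneg _
  have hM1 : ((C * Q : ℕ) : ℝ) + 7 ≤ K ^ (c1 / 2) := by linarith
  have hM2 : (36 : ℝ) ≤ K ^ (c1 / 2) := by linarith
  have hM3 : 2 * (1 + 1 / σ) ≤ K ^ (c1 / 2) := by linarith
  -- the parameters
  obtain ⟨R, hR⟩ : ∃ R : ℕ, R = ⌊K ^ c1⌋₊ := ⟨_, rfl⟩
  have hR1 : 1 ≤ R := by
    rw [hR]
    exact Nat.le_floor (by exact_mod_cast hone c1 hc10.le)
  have hR0 : (0 : ℝ) < R := by exact_mod_cast hR1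
  have hR2 : (R : ℝ) ≤ K ^ c1 := by
    rw [hR]
    exact Nat.floor_le (hpos _).le
  have hR3 : K ^ c1 ≤ 2 * R := by
    have h1 := Nat.lt_floor_add_one (K ^ c1)
    rw [← hR] at h1
    have h2 : (1 : ℝ) ≤ R := by exact_mod_cast hR1
    linarith
  obtain ⟨L, hLdef⟩ : ∃ L : ℕ, L = ⌈K ^ θ / R⌉₊ := ⟨_, rfl⟩
  have hL1 : 1 ≤ L := by
    rw [hLdef]
    exact Nat.ceil_pos.2 (div_pos (hpos _) hR0)
  have hL0 : (0 : ℝ) < L := by exact_mod_cast hL1
  have hL2 : K ^ θ / R ≤ L := by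
    rw [hLdef]
    exact Nat.le_ceil _
  have hL3 : (L : ℝ) ≤ K ^ θ / R + 1 := by
    rw [hLdef]
    exact (Nat.ceil_lt_add_one (div_pos (hpos _) hR0).le).le
  have hRL : K ^ θ ≤ ((R * L : ℕ) : ℝ) := by
    rw [div_le_iff₀ hR0] at hL2
    push_cast
    linarith
  have hL4 : (L : ℝ) ≤ 3 * K ^ (θ - c1) := by
    have h1 : K ^ θ / R ≤ 2 * K ^ (θ - c1) := by
      rw [div_le_iff₀ hR0]
      have h2 : K ^ θ = K ^ (θ - c1) * K ^ c1 := by
        rw [← Real.rpow_add hK0]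
        congr 1
        ring
      rw [h2]
      have := hpos (θ - c1)
      nlinarith
    have h2 := hone (θ - c1) (by linarith)
    linarith
  have hL5 : 1 / (L : ℝ) ≤ K ^ (c1 - θ) := by
    have h1 : K ^ (θ - c1) ≤ L := by
      refine le_trans ?_ hL2
      rw [le_div_iff₀ hR0]
      have h2 : K ^ θ = K ^ (θ - c1) * K ^ c1 := by
        rw [← Real.rpow_add hK0]
        congr 1
        ring
      rw [h2]
      exact mul_le_mul_of_nonneg_left hR2 (hpos _).le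
    have h2 : K ^ (c1 - θ) = 1 / K ^ (θ - c1) := by
      rw [one_div, ← Real.rpow_neg hK0.le]
      congr 1
      ring
    rw [h2]
    exact one_div_le_one_div_of_le (hpos _) h1
  obtain ⟨t, ht⟩ : ∃ t : ℕ, t = ⌊g * Real.log K⌋₊ := ⟨_, rfl⟩
  have hlogK : 0 ≤ Real.log K := Real.log_nonneg hK1
  have ht1 : (t : ℝ) ≤ g * Real.log K := by
    rw [ht]
    exact Nat.floor_le (by positivity)
  have ht2 : g * Real.log K - 1 ≤ t := by
    have := Nat.lt_floor_add_one (g * Real.log K)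
    rw [← ht] at this
    linarith
  obtain ⟨a, ha⟩ : ∃ a : ℕ, a = C * Q + (3 * R + R ^ 2 * L) := ⟨_, rfl⟩
  have hpow : ((2 * κ + 1 : ℕ) : ℝ) ^ t ≤ K ^ ((1 - θ) / 4) := by
    have h1 : ((2 * κ + 1 : ℕ) : ℝ) ^ t = Real.exp (lK * t) := by
      rw [hlK]
      push_cast
      rw [← Real.rpow_def_of_pos (by positivity), Real.rpow_natCast]
    rw [h1, Real.rpow_def_of_pos hK0]
    apply Real.exp_le_exp.2
    calc lK * (t : ℝ) ≤ lK * (g * Real.log K) := mul_le_mul_of_nonneg_left ht1 hlK0.le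
      _ = Real.log K * (g * lK) := by ring
      _ = _ := by rw [hglK]
  have hak : ((a : ℝ) + 1) ≤ (((C * Q : ℕ) : ℝ) + 7) * K ^ (θ + c1) := by
    have h1 : (R : ℝ) ^ 2 * L ≤ 3 * K ^ (θ + c1) := by
      calc (R : ℝ) ^ 2 * L ≤ (K ^ c1) ^ 2 * (3 * K ^ (θ - c1)) := by gcongr
        _ = 3 * (K ^ c1 * K ^ c1 * K ^ (θ - c1)) := by ring
        _ = _ := by
            rw [← Real.rpow_add hK0, ← Real.rpow_add hK0]
            congr 2
            ring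
    have h2 : (3 : ℝ) * R ≤ 3 * K ^ (θ + c1) := by
      have := hR2.trans (hmono c1 (θ + c1) (by linarith))
      linarith
    have h3 := hone (θ + c1) (by linarith)
    rw [ha]
    have h4 : ((C * Q : ℕ) : ℝ) ≤ ((C * Q : ℕ) : ℝ) * K ^ (θ + c1) :=
      le_mul_of_one_le_right hCQ0 h3
    have h5 : (((C * Q + (3 * R + R ^ 2 * L) : ℕ) : ℝ)) =
        ((C * Q : ℕ) : ℝ) + (3 * R + (R : ℝ) ^ 2 * L) := by
      push_cast
      ring
    rw [h5]
    have h6 : (((C * Q : ℕ) : ℝ) + 7) * K ^ (θ + c1) = ((C * Q : ℕ) : ℝ) * K ^ (θ + c1) +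
      7 * K ^ (θ + c1) := by ring
    rw [h6]
    linarith
  have hk2 : (2 * κ + 1) ^ t * (a + 1) ≤ k := by
    have h1 : (((2 * κ + 1) ^ t * (a + 1) : ℕ) : ℝ) ≤ (k : ℝ) := by
      rw [← hK]
      have h2 : (((2 * κ + 1) ^ t * (a + 1) : ℕ) : ℝ) = ((2 * κ + 1 : ℕ) : ℝ) ^ t * ((a : ℝ) + 1) := by
        push_cast
        rfl
      rw [h2]
      calc ((2 * κ + 1 : ℕ) : ℝ) ^ t * ((a : ℝ) + 1) ≤
            K ^ ((1 - θ) / 4) * (K ^ (c1 / 2) * K ^ (θ + c1)) := by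
              apply mul_le_mul hpow _ (by positivity) (hpos _).le
              exact hak.trans (mul_le_mul_of_nonneg_right hM1 (hpos _).le)
        _ = K ^ ((1 - θ) / 4 + (c1 / 2 + (θ + c1))) := by
              rw [← Real.rpow_add hK0, ← Real.rpow_add hK0]
        _ ≤ K ^ (1 : ℝ) := hmono _ _ (by linarith)
        _ = K := Real.rpow_one K
    exact_mod_cast h1
  obtain ⟨β, hβ⟩ : ∃ β : ℝ, β = σ ^ t := ⟨_, rfl⟩
  have hβ0 : 0 ≤ β := by rw [hβ]; positivity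
  have hβ1 : β ≤ (1 / σ) * K ^ (-c5) := by
    have h1 : σ ^ t = Real.exp (t * Real.log σ) := by
      rw [mul_comm, ← Real.rpow_def_of_pos hσ0, Real.rpow_natCast]
    have h2 : (1 / σ) * K ^ (-c5) = Real.exp ((g * Real.log K - 1) * Real.log σ) := by
      have h3 : (1 : ℝ) / σ = Real.exp (-Real.log σ) := by
        rw [Real.exp_neg, Real.exp_log hσ0, one_div]
      rw [h3, Real.rpow_def_of_pos hK0, ← Real.exp_add, hc5]
      congr 1
      ring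
    rw [hβ, h1, h2]
    apply Real.exp_le_exp.2
    exact mul_le_mul_of_nonpos_right ht2 hlσ.le
  have hmain := main (Dig b k D) x y R L hR1 hL1 β hβ0 (by
    intro b' hb' hb'R u v huv hv _ h hh0 hh
    obtain ⟨h1, h2⟩ := size C Q R L b' u v hb' hb'R huv hv h hh0 hh
    have h3 := decay x κ C hκ hC hx hb Q hQ hdQ k t a D hD hD2
      (h * ((b' : ℤ) ^ v - (b' : ℤ) ^ u)) h1 (by
        rw [ha]
        exact h2.trans (Nat.pow_le_pow_left hb _)) hk2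
    rw [← hσ, ← hβ] at h3
    rw [mul_comm β]
    exact h3)
  have hsub : (Dig b k D).filter (fun m : ℕ => ¬ WDR (K ^ (c1 / 2)) (K ^ θ) (K ^ (θ - c1 / 2))
        (y + m * x)) ⊆
      (Dig b k D).filter (fun m : ℕ => ¬ WD R ((R * L : ℕ) : ℝ) (12 * L) (y + m * x)) := by
    intro m hm
    rw [Finset.mem_filter] at hm ⊢
    refine ⟨hm.1, fun h => hm.2 (wdr_of h ?_ hRL ?_)⟩
    · have h1 : K ^ c1 = K ^ (c1 / 2) * K ^ (c1 / 2) := by
        rw [← Real.rpow_add hK0]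
        congr 1
        ring
      have h2 := hpos (c1 / 2)
      nlinarith
    · calc 12 * (L : ℝ) ≤ 36 * K ^ (θ - c1) := by linarith
        _ ≤ K ^ (c1 / 2) * K ^ (θ - c1) := mul_le_mul_of_nonneg_right hM2 (hpos _).le
        _ = K ^ (θ - c1 / 2) := by
            rw [← Real.rpow_add hK0]
            congr 1
            ring
  have hcoef : 2 * (R : ℝ) ^ 13 * (1 / L + β) ≤ K ^ (-(c1 / 2)) := by
    have h1 : (R : ℝ) ^ 13 ≤ K ^ (13 * c1) := by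
      calc (R : ℝ) ^ 13 ≤ (K ^ c1) ^ 13 := pow_le_pow_left₀ hR0.le hR2 13
        _ = K ^ (13 * c1) := by
            rw [← Real.rpow_natCast, ← Real.rpow_mul hK0.le]
            congr 1
            push_cast
            ring
    have h2 : 1 / (L : ℝ) + β ≤ (1 + 1 / σ) * K ^ (-(39 * c1)) := by
      have h3 : K ^ (c1 - θ) ≤ K ^ (-(39 * c1)) := hmono _ _ (by linarith)
      have h4 : K ^ (-c5) ≤ K ^ (-(39 * c1)) := hmono _ _ (by linarith)
      have h5 := mul_le_mul_of_nonneg_left h4 hinv.le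
      linarith
    have h3 : 0 ≤ 1 / (L : ℝ) + β := by positivity
    calc 2 * (R : ℝ) ^ 13 * (1 / L + β) ≤
          2 * K ^ (13 * c1) * ((1 + 1 / σ) * K ^ (-(39 * c1))) := by gcongr
      _ = (2 * (1 + 1 / σ)) * (K ^ (13 * c1) * K ^ (-(39 * c1))) := by ring
      _ ≤ K ^ (c1 / 2) * (K ^ (13 * c1) * K ^ (-(39 * c1))) :=
          mul_le_mul_of_nonneg_right hM3 (by positivity)
      _ = K ^ (c1 / 2 + (13 * c1 + -(39 * c1))) := by
          rw [← Real.rpow_add hK0, ← Real.rpow_add hK0]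
      _ ≤ _ := hmono _ _ (by linarith)
  calc (((Dig b k D).filter (fun m : ℕ => ¬ WDR (K ^ (c1 / 2)) (K ^ θ) (K ^ (θ - c1 / 2))
        (y + m * x))).card : ℝ)
      ≤ (((Dig b k D).filter (fun m : ℕ => ¬ WD R ((R * L : ℕ) : ℝ) (12 * L)
          (y + m * x))).card : ℝ) := by exact_mod_cast Finset.card_le_card hsub
    _ ≤ 2 * R ^ 13 * (1 / L + β) * (Dig b k D).card := hmain
    _ ≤ _ := mul_le_mul_of_nonneg_right hcoef (Nat.cast_nonneg _)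

end Pool.Agent.Q263.CM
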