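import Mathlib
import Pool.Agent.Q263.CM.NLF
import Pool.Agent.Q263.JM.Sub

/-!
Algebraic numbers: the first `A k` digits of the multiples by integers with `k` restricted digits.
-/

set_option autoImplicit false
set_option maxHeartbeats 4000000

open Finset Filter Topology

namespace Pool.Agent.Q263.CM

open Pool.Agent.H332R2.Lit (e e_add norm_e e_zero normSq_sum)
open Pool.Agent.Q263.MD (Dig)

/-- a case of the subspace theorem -/
lemma alg_sep (x : ℝ) (hirr : Irrational x) (halg : IsAlgebraic ℚ x) (B : ℕ) (δ : ℝ)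
    (hδ : 0 < δ) :
    ∃ c : ℝ, 0 < c ∧ ∀ g s : ℕ, 1 ≤ g → 1 ≤ s → (∀ p : ℕ, p.Prime → p ∣ s → p ≤ B) →
      ∀ P : ℤ, c ≤ (g : ℝ) ^ (1 + δ) * (s : ℝ) ^ δ * |(s : ℝ) * g * x - P| := by
  obtain ⟨c, hc, h⟩ := Pool.Agent.Q263.JM.simul (n := 1) (le_refl 1) (fun _ => x) (fun _ => halg)
    (by
      intro c0 c hc
      rw [Fin.sum_univ_one] at hc
      have h1 : c 0 = 0 := by
        by_contra h0
        have h2 : (c 0 : ℝ) ≠ 0 := by exact_mod_cast h0
        apply hirr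
        refine ⟨-(c0 : ℚ) / (c 0 : ℚ), ?_⟩
        push_cast
        field_simp
        linarith
      rw [h1] at hc
      refine ⟨?_, ?_⟩
      · have : (c0 : ℝ) = 0 := by
          push_cast at hc
          linarith
        exact_mod_cast this
      · funext i
        rw [Subsingleton.elim i 0, h1]
        rfl) B δ hδ
  refine ⟨c, hc, fun g s hg hs hsm P => ?_⟩
  obtain ⟨l, hl⟩ := h g s hg hs hsm (fun _ => P)
  have e1 : 1 / ((1 : ℕ) : ℝ) + δ = 1 + δ := by norm_num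
  rw [e1] at hl
  exact hl

/-- decay of the exponential sums -/
theorem decay_alg (x : ℝ) (P : ℕ) (c δ : ℝ) (hc : 0 < c) (hδ : 0 < δ)
    (hx : ∀ g s : ℕ, 1 ≤ g → 1 ≤ s → (∀ p : ℕ, p.Prime → p ∣ s → p ≤ P) →
      ∀ n : ℤ, c ≤ (g : ℝ) ^ (1 + δ) * (s : ℝ) ^ δ * |(s : ℝ) * g * x - n|)
    {b : ℕ} (hb : 2 ≤ b) (hbP : b ≤ P) (Q : ℕ) (hQ : 1 ≤ Q)
    (hdQ : ∀ d, 1 ≤ d → d < b → d ∣ Q)
    (k N r : ℕ) (hNr : N * r ≤ k) (D : Fin k → Finset ℕ) (hD : ∀ i, ∀ d ∈ D i, d < b)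
    (hD2 : ∀ i, 2 ≤ (D i).card) (g0 s0 : ℕ) (hg0 : 1 ≤ g0) (hs0 : 1 ≤ s0)
    (hs0P : ∀ p : ℕ, p.Prime → p ∣ s0 → p ≤ P)
    (hsize : ((Q : ℝ) * g0) ^ (1 + δ) * ((b : ℝ) ^ k * s0) ^ δ < 2 * c * (b : ℝ) ^ r)
    (G : ℤ) (hG : G.natAbs = s0 * g0) :
    ‖∑ m ∈ Dig b k D, e (m * (G * x))‖ ≤
      (Dig b k D).card * (1 - 4 * ((1 / (2 * (b : ℝ))) / Q) ^ 2 / b) ^ N := by
  have hb0 : (0 : ℝ) < b := by exact_mod_cast (by omega : 0 < b)
  have hb2 : (2 : ℝ) ≤ b := by exact_mod_cast hb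
  have hb1 : (1 : ℝ) ≤ b := by linarith
  obtain ⟨I, hI1, hI2⟩ := count hb ((Q : ℝ) * (G * x)) (fun j => j * r) N
    (fun j _ => Nat.mul_le_mul_right r (by omega)) (by
    intro j hj n
    have h0 : (j + 1) * r - j * r = r := by
      rw [Nat.succ_mul]
      omega
    rw [h0]
    have hsign : ∃ p : ℤ, |(b : ℝ) ^ (j * r) * (Q * (G * x)) - n| =
        |((b ^ (j * r) * s0 : ℕ) : ℝ) * ((Q * g0 : ℕ) : ℝ) * x - p| := by
      rcases Int.natAbs_eq G with h1 | h1
      · refine ⟨n, ?_⟩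
        congr 2
        have h2 : (G : ℝ) = s0 * g0 := by
          have h3 : (G : ℝ) = ((G.natAbs : ℤ) : ℝ) := by rw [← h1]
          rw [h3, hG, Int.cast_natCast]
          push_cast
          rfl
        rw [h2]
        push_cast
        ring
      · refine ⟨-n, ?_⟩
        have h2 : (G : ℝ) = -(s0 * g0) := by
          have h3 : (G : ℝ) = ((-(G.natAbs : ℤ) : ℤ) : ℝ) := by rw [← h1]
          rw [h3, hG, Int.cast_neg, Int.cast_natCast]
          push_cast
          rfl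
        rw [h2, ← abs_neg]
        congr 1
        push_cast
        ring
    obtain ⟨p, hp⟩ := hsign
    rw [hp]
    have h1 := hx (Q * g0) (b ^ (j * r) * s0) (Nat.mul_pos hQ hg0)
      (Nat.mul_pos (Nat.pow_pos (by omega)) hs0) (by
        intro p hpp hpd
        rcases (Nat.Prime.dvd_mul hpp).1 hpd with h | h
        · exact (Nat.le_of_dvd (by omega) (hpp.dvd_of_dvd_pow h)).trans hbP
        · exact hs0P p hpp h) p
    have hjr : j * r ≤ k := (Nat.mul_le_mul_right r hj.le).trans hNr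
    have h2 : (((Q * g0 : ℕ) : ℝ)) ^ (1 + δ) * (((b ^ (j * r) * s0 : ℕ) : ℝ)) ^ δ ≤
        ((Q : ℝ) * g0) ^ (1 + δ) * ((b : ℝ) ^ k * s0) ^ δ := by
      push_cast
      apply mul_le_mul_of_nonneg_left _ (by positivity)
      apply Real.rpow_le_rpow (by positivity) _ hδ.le
      apply mul_le_mul_of_nonneg_right _ (Nat.cast_nonneg _)
      exact pow_le_pow_right₀ hb1 hjr
    set E := |((b ^ (j * r) * s0 : ℕ) : ℝ) * ((Q * g0 : ℕ) : ℝ) * x - p| with hE
    have hE0 : 0 ≤ E := abs_nonneg _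
    have h3 : c ≤ ((Q : ℝ) * g0) ^ (1 + δ) * ((b : ℝ) ^ k * s0) ^ δ * E :=
      h1.trans (mul_le_mul_of_nonneg_right h2 hE0)
    have hE1 : 0 < E := by
      rcases hE0.lt_or_eq with h | h
      · exact h
      · rw [← h, mul_zero] at h3
        linarith
    have h4 := mul_lt_mul_of_pos_right hsize hE1
    have h5 : c < c * (2 * ((b : ℝ) ^ r * E)) := by
      calc c ≤ _ := h3
        _ < 2 * c * (b : ℝ) ^ r * E := h4
        _ = _ := by ring
    have h6 : 1 < 2 * ((b : ℝ) ^ r * E) := by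
      by_contra hcon
      push Not at hcon
      nlinarith
    linarith)
  have h1 := riesz hb D hD hD2 Q hQ hdQ (1 / (2 * b)) (by positivity) (by
    apply one_div_le_one_div_of_le (by norm_num)
    linarith) ((G : ℝ) * x) I (fun i hi => ⟨lt_of_lt_of_le (hI2 i hi).1 hNr, (hI2 i hi).2⟩)
  rw [hI1] at h1
  exact h1

/-- the size of the multipliers -/
lemma size_alg (R L : ℕ) (b u v : ℕ) (hb : 2 ≤ b) (hbR : b ≤ R) (huv : u < v) (hvL : v - u < L)
    (hv : v < R * L) (h : ℤ) (hh0 : h ≠ 0) (hh : |h| < ((R ^ 3 : ℕ) : ℤ)) :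
    ∃ g0 s0 : ℕ, 1 ≤ g0 ∧ 1 ≤ s0 ∧ (∀ p : ℕ, p.Prime → p ∣ s0 → p ≤ R) ∧
      (h * ((b : ℤ) ^ v - (b : ℤ) ^ u)).natAbs = s0 * g0 ∧ g0 ≤ R ^ 3 * R ^ L ∧
      s0 ≤ R ^ (R * L) := by
  obtain ⟨w, hw, rfl⟩ : ∃ w, 1 ≤ w ∧ v = u + w := ⟨v - u, by omega, by omega⟩
  have hwL : w < L := by omega
  have h1 : 1 < b ^ w := Nat.one_lt_pow (by omega) (by omega)
  have h2 : ((b : ℤ) ^ (u + w) - (b : ℤ) ^ u) = ((b ^ u * (b ^ w - 1) : ℕ) : ℤ) := by
    rw [Nat.cast_mul, Nat.cast_sub h1.le]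
    push_cast
    ring
  have h3 : h.natAbs ≤ R ^ 3 := by
    have : (h.natAbs : ℤ) < ((R ^ 3 : ℕ) : ℤ) := by rw [Int.natCast_natAbs]; exact hh
    have h4 : h.natAbs < R ^ 3 := by exact_mod_cast this
    exact h4.le
  refine ⟨h.natAbs * (b ^ w - 1), b ^ u, Nat.mul_pos (by omega) (by omega),
    Nat.pow_pos (by omega), ?_, ?_, ?_, ?_⟩
  · intro p hp hpd
    exact (Nat.le_of_dvd (by omega) (hp.dvd_of_dvd_pow hpd)).trans hbR
  · rw [Int.natAbs_mul, h2, Int.natAbs_natCast]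
    ring
  · apply Nat.mul_le_mul h3
    calc b ^ w - 1 ≤ b ^ w := Nat.sub_le _ _
      _ ≤ R ^ w := Nat.pow_le_pow_left hbR w
      _ ≤ R ^ L := Nat.pow_le_pow_right (by omega) hwL.le
  · calc b ^ u ≤ R ^ u := Nat.pow_le_pow_left hbR u
      _ ≤ R ^ (R * L) := Nat.pow_le_pow_right (by omega) (by omega)

/-- the numerical parameters -/
lemma params (σ lb A ε : ℝ) (hσ0 : 0 < σ) (hσ1 : σ < 1) (hlb : 0 < lb) (hε : 0 < ε) (B : ℕ) :
    ∃ N : ℕ, 2 ≤ N ∧ B ≤ N ∧ 24 * A / ε ≤ N ∧ 4 * (N : ℝ) ^ 26 * σ ^ N ≤ ε ∧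
      32 * A * Real.log N ≤ N * lb := by
  have h1 : ∀ᶠ N : ℕ in atTop, (N : ℝ) ^ 26 * σ ^ N < ε / 4 :=
    (tendsto_pow_const_mul_const_pow_of_lt_one 26 hσ0.le hσ1).eventually_lt_const (by positivity)
  have h2 : ∀ᶠ N : ℕ in atTop, 24 * A / ε ≤ (N : ℝ) :=
    tendsto_natCast_atTop_atTop.eventually_ge_atTop _
  have h3 : ∀ᶠ N : ℕ in atTop, ‖Real.log (N : ℝ)‖ ≤ lb / (32 * (|A| + 1)) * ‖(N : ℝ)‖ :=
    tendsto_natCast_atTop_atTop.eventually
      (Real.isLittleO_log_id_atTop.def (show 0 < lb / (32 * (|A| + 1)) by positivity))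
  obtain ⟨N, ⟨⟨hN1, hN2⟩, hN3⟩, hN4⟩ := (((h1.and h2).and h3).and
    (eventually_ge_atTop (max B 2))).exists
  refine ⟨N, (le_max_right _ _).trans hN4, (le_max_left _ _).trans hN4, hN2, by linarith, ?_⟩
  have hN5 : (2 : ℝ) ≤ N := by exact_mod_cast (le_max_right _ _).trans hN4
  have hlog : 0 ≤ Real.log (N : ℝ) := Real.log_nonneg (by linarith)
  rw [Real.norm_of_nonneg hlog, Real.norm_of_nonneg (by linarith)] at hN3
  have hA : A ≤ |A| + 1 := by linarith [le_abs_self A]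
  have hA0 : 0 < |A| + 1 := by positivity
  calc 32 * A * Real.log N ≤ 32 * (|A| + 1) * Real.log N := by
        apply mul_le_mul_of_nonneg_right _ hlog
        linarith
    _ ≤ 32 * (|A| + 1) * (lb / (32 * (|A| + 1)) * N) :=
        mul_le_mul_of_nonneg_left hN3 (by positivity)
    _ = N * lb := by field_simp

open Classical in
theorem alg_main (x : ℝ) (hirr : Irrational x) (halg : IsAlgebraic ℚ x) {b : ℕ} (hb : 2 ≤ b)
    (P A ε : ℝ) (hε : 0 < ε) :
    ∃ k0 : ℕ, ∀ k : ℕ, k0 ≤ k → ∀ D : Fin k → Finset ℕ,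
      (∀ i, ∀ d ∈ D i, d < b) → (∀ i, 2 ≤ (D i).card) → ∀ y : ℝ,
      (((Dig b k D).filter (fun m : ℕ => ¬ WDR P (A * k) (ε * k) (y + m * x))).card : ℝ) ≤
        ε * (Dig b k D).card := by
  obtain ⟨Q, hQdef⟩ : ∃ Q : ℕ, Q = b.factorial := ⟨_, rfl⟩
  have hQ : 1 ≤ Q := by rw [hQdef]; exact Nat.factorial_pos b
  have hdQ : ∀ d, 1 ≤ d → d < b → d ∣ Q := by
    intro d h1 h2
    rw [hQdef]
    exact Nat.dvd_factorial (by omega) h2.le
  obtain ⟨hσ0, hσ1⟩ := sig_bounds b Q hb hQ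
  obtain ⟨σ, hσ⟩ : ∃ σ : ℝ, σ = 1 - 4 * ((1 / (2 * (b : ℝ))) / Q) ^ 2 / b := ⟨_, rfl⟩
  rw [← hσ] at hσ0 hσ1
  have hb2 : (2 : ℝ) ≤ b := by exact_mod_cast hb
  have hb0 : (0 : ℝ) < b := by linarith
  obtain ⟨lb, hlb⟩ : ∃ lb : ℝ, lb = Real.log b := ⟨_, rfl⟩
  have hlb0 : 0 < lb := by
    rw [hlb]
    apply Real.log_pos
    linarith
  obtain ⟨A', hA'⟩ : ∃ A' : ℝ, A' = max A 1 := ⟨_, rfl⟩
  have hA'1 : 1 ≤ A' := by rw [hA']; exact le_max_right _ _
  have hAA' : A ≤ A' := by rw [hA']; exact le_max_left _ _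
  obtain ⟨N, hN2, hNB, hN3, hN4, hN5⟩ := params σ lb A' ε hσ0 hσ1 hlb0 hε (max b ⌈P⌉₊)
  have hNb : b ≤ N := (le_max_left _ _).trans hNB
  have hNP : P ≤ N := by
    refine (Nat.le_ceil P).trans ?_
    exact_mod_cast (le_max_right _ _).trans hNB
  have hNR : (2 : ℝ) ≤ N := by exact_mod_cast hN2
  have hN0 : (0 : ℝ) < N := by linarith
  obtain ⟨R, hR⟩ : ∃ R : ℕ, R = N ^ 2 := ⟨_, rfl⟩
  have hNleR : N ≤ R := by
    rw [hR]
    nlinarith
  have hNleR' : (N : ℝ) ≤ R := by exact_mod_cast hNleR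
  have hR1 : 1 ≤ R := by omega
  have hR0 : (0 : ℝ) < R := by exact_mod_cast hR1
  have hRR : (R : ℝ) = (N : ℝ) ^ 2 := by rw [hR]; push_cast; rfl
  obtain ⟨lR, hlR⟩ : ∃ lR : ℝ, lR = Real.log R := ⟨_, rfl⟩
  have hlR0 : 0 < lR := by
    rw [hlR]
    apply Real.log_pos
    linarith
  have hlR2 : lR = 2 * Real.log N := by
    rw [hlR, hRR, Real.log_pow]
    push_cast
    ring
  -- `2 A' log R / R ≤ log b / (8 N)`
  have hmain1 : 2 * A' * lR / R ≤ lb / (8 * N) := by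
    rw [hlR2, hRR, div_le_div_iff₀ (by positivity) (by positivity)]
    have h1 := mul_le_mul_of_nonneg_right hN5 hN0.le
    nlinarith
  obtain ⟨δ, hδ⟩ : ∃ δ : ℝ, δ = min 1 (lb / (8 * N * (lb + A' * lR))) := ⟨_, rfl⟩
  have hδ0 : 0 < δ := by
    rw [hδ]
    exact lt_min one_pos (by positivity)
  have hδ1 : δ ≤ 1 := by rw [hδ]; exact min_le_left _ _
  have hδ2 : δ * (lb + A' * lR) ≤ lb / (8 * N) := by
    have h1 : δ ≤ lb / (8 * N * (lb + A' * lR)) := by rw [hδ]; exact min_le_right _ _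
    calc δ * (lb + A' * lR) ≤ lb / (8 * N * (lb + A' * lR)) * (lb + A' * lR) :=
          mul_le_mul_of_nonneg_right h1 (by positivity)
      _ = lb / (8 * N) := by field_simp
  obtain ⟨c, hc, hx⟩ := alg_sep x hirr halg R δ hδ0
  obtain ⟨Cst, hCst⟩ : ∃ Cst : ℝ, Cst = 2 * (Real.log Q + 3 * lR + lR) + R * lR + lb -
    Real.log (2 * c) + 1 := ⟨_, rfl⟩
  obtain ⟨k0, hk0⟩ := exists_nat_gt (24 / ε + 4 * (R : ℝ) ^ 14 / ε + |Cst| * (4 * N / lb) + 1)
  refine ⟨k0, fun k hk D hD hD2 y => ?_⟩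
  have hkR : 24 / ε + 4 * (R : ℝ) ^ 14 / ε + |Cst| * (4 * N / lb) + 1 ≤ (k : ℝ) := by
    have : (k0 : ℝ) ≤ k := by exact_mod_cast hk
    linarith
  have hp1 : 0 ≤ 24 / ε := by positivity
  have hp2 : 0 ≤ 4 * (R : ℝ) ^ 14 / ε := by positivity
  have hp3 : 0 ≤ |Cst| * (4 * N / lb) := by positivity
  have hk1 : (1 : ℝ) ≤ k := by linarith
  have hkpos : (0 : ℝ) < k := by linarith
  have hkε : 24 ≤ ε * k := by
    have h1 : 24 / ε ≤ k := by linarith
    rw [div_le_iff₀ hε] at h1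
    linarith
  have hkR14 : 4 * (R : ℝ) ^ 14 ≤ ε * k := by
    have h1 : 4 * (R : ℝ) ^ 14 / ε ≤ k := by linarith
    rw [div_le_iff₀ hε] at h1
    linarith
  have hkC : Cst ≤ lb / (4 * N) * k := by
    have h1 : |Cst| * (4 * N / lb) ≤ k := by linarith
    have h2 : |Cst| ≤ lb / (4 * N) * k := by
      have h3 := mul_le_mul_of_nonneg_left h1 (show 0 ≤ lb / (4 * N) by positivity)
      have h4 : lb / (4 * N) * (|Cst| * (4 * N / lb)) = |Cst| := by field_simp
      rw [h4] at h3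
      exact h3
    exact (le_abs_self _).trans h2
  obtain ⟨L, hLdef⟩ : ∃ L : ℕ, L = ⌈A' * k / R⌉₊ := ⟨_, rfl⟩
  have hAk : 0 < A' * k / R := by positivity
  have hL1 : 1 ≤ L := by
    rw [hLdef]
    exact Nat.ceil_pos.2 hAk
  have hL0 : (0 : ℝ) < L := by exact_mod_cast hL1
  have hL2 : A' * k / R ≤ L := by
    rw [hLdef]
    exact Nat.le_ceil _
  have hL3 : (L : ℝ) ≤ A' * k / R + 1 := by
    rw [hLdef]
    exact (Nat.ceil_lt_add_one hAk.le).le
  have hRL : A * k ≤ ((R * L : ℕ) : ℝ) := by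
    rw [div_le_iff₀ hR0] at hL2
    push_cast
    have h1 := mul_le_mul_of_nonneg_right hAA' hkpos.le
    linarith
  obtain ⟨r, hr⟩ : ∃ r : ℕ, r = k / N := ⟨_, rfl⟩
  have hNr : N * r ≤ k := by rw [hr]; exact Nat.mul_div_le k N
  have hr2 : (k : ℝ) / N - 1 ≤ r := by
    have h1 : k < N * (r + 1) := by
      rw [hr]
      exact Nat.lt_mul_div_succ k (by omega)
    have h2 : (k : ℝ) < N * (r + 1) := by exact_mod_cast h1
    have h3 : (k : ℝ) / N < r + 1 := by
      rw [div_lt_iff₀ hN0]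
      linarith
    linarith
  -- the size condition
  have hsize : ∀ g0 s0 : ℕ, 1 ≤ g0 → 1 ≤ s0 → g0 ≤ R ^ 3 * R ^ L → s0 ≤ R ^ (R * L) →
      ((Q : ℝ) * g0) ^ (1 + δ) * ((b : ℝ) ^ k * s0) ^ δ < 2 * c * (b : ℝ) ^ r := by
    intro g0 s0 hg0 hs0 hg hs
    have hQ0 : (0 : ℝ) < Q := by exact_mod_cast hQ
    have hg0' : (0 : ℝ) < g0 := by exact_mod_cast hg0
    have hs0' : (0 : ℝ) < s0 := by exact_mod_cast hs0
    have hRe : (R : ℝ) = Real.exp lR := by rw [hlR, Real.exp_log hR0]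
    have hbe : (b : ℝ) = Real.exp lb := by rw [hlb, Real.exp_log hb0]
    have hQe : (Q : ℝ) = Real.exp (Real.log Q) := by rw [Real.exp_log hQ0]
    have h1 : (Q : ℝ) * g0 ≤ Real.exp (Real.log Q + 3 * lR + L * lR) := by
      have h2 : (g0 : ℝ) ≤ (R : ℝ) ^ 3 * (R : ℝ) ^ L := by exact_mod_cast hg
      have h3 : (R : ℝ) ^ 3 * (R : ℝ) ^ L = Real.exp (3 * lR + L * lR) := by
        rw [hRe, ← Real.exp_nat_mul, ← Real.exp_nat_mul, ← Real.exp_add]
        congr 1
      rw [h3] at h2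
      calc (Q : ℝ) * g0 ≤ Real.exp (Real.log Q) * Real.exp (3 * lR + L * lR) := by
            rw [← hQe]
            exact mul_le_mul_of_nonneg_left h2 hQ0.le
        _ = _ := by
            rw [← Real.exp_add]
            congr 1
            ring
    have h2 : (b : ℝ) ^ k * s0 ≤ Real.exp (k * lb + R * L * lR) := by
      have h3 : (s0 : ℝ) ≤ (R : ℝ) ^ (R * L) := by exact_mod_cast hs
      have h4 : (R : ℝ) ^ (R * L) = Real.exp (R * L * lR) := by
        rw [hRe, ← Real.exp_nat_mul]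
        congr 1
        push_cast
        rw [← hRe]
      have h5 : (b : ℝ) ^ k = Real.exp (k * lb) := by
        rw [hbe, ← Real.exp_nat_mul]
      rw [h4] at h3
      rw [h5, Real.exp_add]
      exact mul_le_mul_of_nonneg_left h3 (Real.exp_pos _).le
    have h3 : ((Q : ℝ) * g0) ^ (1 + δ) ≤
        Real.exp ((Real.log Q + 3 * lR + L * lR) * (1 + δ)) := by
      rw [Real.exp_mul]
      exact Real.rpow_le_rpow (by positivity) h1 (by positivity)
    have h4 : ((b : ℝ) ^ k * s0) ^ δ ≤ Real.exp ((k * lb + R * L * lR) * δ) := by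
      rw [Real.exp_mul]
      exact Real.rpow_le_rpow (by positivity) h2 hδ0.le
    have h5 : 2 * c * (b : ℝ) ^ r = Real.exp (Real.log (2 * c) + r * lb) := by
      rw [Real.exp_add, Real.exp_log (by positivity), hbe, ← Real.exp_nat_mul]
    rw [h5]
    calc ((Q : ℝ) * g0) ^ (1 + δ) * ((b : ℝ) ^ k * s0) ^ δ
        ≤ Real.exp ((Real.log Q + 3 * lR + L * lR) * (1 + δ)) *
          Real.exp ((k * lb + R * L * lR) * δ) :=
          mul_le_mul h3 h4 (by positivity) (Real.exp_pos _).le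
      _ = Real.exp ((Real.log Q + 3 * lR + L * lR) * (1 + δ) + (k * lb + R * L * lR) * δ) := by
          rw [Real.exp_add]
      _ < Real.exp (Real.log (2 * c) + r * lb) := by
          apply Real.exp_lt_exp.2
          have hlQ : 0 ≤ Real.log Q := Real.log_natCast_nonneg _
          have hLlR : (L : ℝ) * lR ≤ A' * lR / R * k + lR := by
            have h6 := mul_le_mul_of_nonneg_right hL3 hlR0.le
            have h7 : (A' * k / R + 1) * lR = A' * lR / R * k + lR := by ring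
            linarith
          have hRLl : (R : ℝ) * L * lR ≤ A' * lR * k + R * lR := by
            have h6 := mul_le_mul_of_nonneg_left hLlR hR0.le
            have h7 : (R : ℝ) * (A' * lR / R * k + lR) = A' * lR * k + R * lR := by
              field_simp
            calc (R : ℝ) * L * lR = R * (L * lR) := by ring
              _ ≤ _ := h6
              _ = _ := h7
          have hX : (Real.log Q + 3 * lR + L * lR) * (1 + δ) ≤
              2 * (Real.log Q + 3 * lR + lR) + 2 * A' * lR / R * k := by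
            have h6 : 0 ≤ Real.log Q + 3 * lR + L * lR := by positivity
            have h7 : (Real.log Q + 3 * lR + L * lR) * (1 + δ) ≤
                (Real.log Q + 3 * lR + L * lR) * 2 :=
              mul_le_mul_of_nonneg_left (by linarith) h6
            have h8 : 2 * A' * lR / R * k = 2 * (A' * lR / R * k) := by ring
            rw [h8]
            linarith
          have hY : (k * lb + R * L * lR) * δ ≤ δ * (lb + A' * lR) * k + R * lR := by
            have h6 : (k * lb + R * L * lR) * δ ≤ (k * lb + (A' * lR * k + R * lR)) * δ :=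
              mul_le_mul_of_nonneg_right (by linarith) hδ0.le
            have h7 : (R : ℝ) * lR * δ ≤ R * lR :=
              mul_le_of_le_one_right (by positivity) hδ1
            have h8 : (k * lb + (A' * lR * k + R * lR)) * δ =
                δ * (lb + A' * lR) * k + R * lR * δ := by ring
            linarith
          have hZ1 := mul_le_mul_of_nonneg_right hmain1 hkpos.le
          have hZ2 := mul_le_mul_of_nonneg_right hδ2 hkpos.le
          have hZ3 : ((k : ℝ) / N - 1) * lb ≤ r * lb := mul_le_mul_of_nonneg_right hr2 hlb0.le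
          have hZ4 : ((k : ℝ) / N - 1) * lb = lb / (8 * N) * k * 8 - lb := by
            field_simp
          have hZ5 : lb / (4 * N) * k = lb / (8 * N) * k * 2 := by
            field_simp
            ring
          have hZ6 : 0 ≤ lb / (8 * N) * k := by positivity
          rw [hCst] at hkC
          linarith
  obtain ⟨β, hβ⟩ : ∃ β : ℝ, β = σ ^ N := ⟨_, rfl⟩
  have hβ0 : 0 ≤ β := by rw [hβ]; positivity
  have hmain := main (Dig b k D) x y R L hR1 hL1 β hβ0 (by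
    intro b' hb' hb'R u v huv hv hvL h hh0 hh
    obtain ⟨g0, s0, hg0, hs0, hsP, hG, hg, hs⟩ := size_alg R L b' u v hb' hb'R huv hvL hv h hh0 hh
    have h3 := decay_alg x R c δ hc hδ0 hx hb (hNb.trans hNleR) Q hQ hdQ k N r hNr D hD hD2 g0 s0
      hg0 hs0 hsP (hsize g0 s0 hg0 hs0 hg hs) (h * ((b' : ℤ) ^ v - (b' : ℤ) ^ u)) hG
    rw [← hσ, ← hβ] at h3
    rw [mul_comm β]
    exact h3)
  have hsub : (Dig b k D).filter (fun m : ℕ => ¬ WDR P (A * k) (ε * k) (y + m * x)) ⊆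
      (Dig b k D).filter (fun m : ℕ => ¬ WD R ((R * L : ℕ) : ℝ) (12 * L) (y + m * x)) := by
    intro m hm
    rw [Finset.mem_filter] at hm ⊢
    refine ⟨hm.1, fun h => hm.2 (wdr_of h (hNP.trans hNleR') hRL ?_)⟩
    have h1 : 12 * (A' * k / R) ≤ ε / 2 * k := by
      have h2 : 24 * A' ≤ ε * R := by
        have h3 := hN3.trans hNleR'
        rw [div_le_iff₀ hε] at h3
        linarith
      have h3 : 12 * (A' * k / R) = 24 * A' / R * (k / 2) := by
        field_simp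
        ring
      rw [h3]
      have h4 : 24 * A' / R ≤ ε := by
        rw [div_le_iff₀ hR0]
        exact h2
      calc 24 * A' / R * ((k : ℝ) / 2) ≤ ε * (k / 2) :=
            mul_le_mul_of_nonneg_right h4 (by positivity)
        _ = _ := by ring
    linarith
  have hcoef : 2 * (R : ℝ) ^ 13 * (1 / L + β) ≤ ε := by
    have h1 : 2 * (R : ℝ) ^ 13 * (1 / L) ≤ ε / 2 := by
      have h2 : (k : ℝ) / R ≤ L := by
        refine le_trans ?_ hL2
        apply div_le_div_of_nonneg_right _ hR0.le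
        nlinarith
      have h3 : 1 / (L : ℝ) ≤ R / k := by
        rw [div_le_div_iff₀ hL0 hkpos]
        rw [div_le_iff₀ hR0] at h2
        linarith
      calc 2 * (R : ℝ) ^ 13 * (1 / L) ≤ 2 * (R : ℝ) ^ 13 * (R / k) :=
            mul_le_mul_of_nonneg_left h3 (by positivity)
        _ = 4 * (R : ℝ) ^ 14 / (2 * k) := by
            field_simp
            ring
        _ ≤ ε / 2 := by
            rw [div_le_div_iff₀ (by positivity) (by norm_num)]
            linarith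
    have h2 : 2 * (R : ℝ) ^ 13 * β ≤ ε / 2 := by
      rw [hβ, hRR, ← pow_mul]
      linarith
    rw [mul_add]
    linarith
  calc (((Dig b k D).filter (fun m : ℕ => ¬ WDR P (A * k) (ε * k) (y + m * x))).card : ℝ)
      ≤ (((Dig b k D).filter (fun m : ℕ => ¬ WD R ((R * L : ℕ) : ℝ) (12 * L)
          (y + m * x))).card : ℝ) := by exact_mod_cast Finset.card_le_card hsub
    _ ≤ 2 * R ^ 13 * (1 / L + β) * (Dig b k D).card := hmain
    _ ≤ _ := mul_le_mul_of_nonneg_right hcoef (Nat.cast_nonneg _)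

end Pool.Agent.Q263.CM
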