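import Mathlib
import Pool.Agent.H326R2.Pi.Top
import Pool.Agent.H43R2.Cplx.EFinal

/-!
`e`, `π` and `√2` are irrational and not Liouville numbers.
-/

set_option autoImplicit false

namespace Pool.Agent.Q263.CM

theorem not_liouville_of {x : ℝ} {n : ℕ} {c : ℝ} {Q : ℕ} (hc : 0 < c)
    (h : ∀ q : ℕ, Q ≤ q → 1 ≤ q → ∀ p : ℤ, c / (q : ℝ) ^ n ≤ |x - p / q|) : ¬ Liouville x := by
  intro hL
  obtain ⟨q0, hq0⟩ := exists_nat_gt (1 / c)
  have h1 := hL.frequently_exists_num (n + 1)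
  obtain ⟨q, ⟨p, hp1, hp2⟩, hq⟩ := (h1.and_eventually
    (Filter.eventually_ge_atTop (max Q (max q0 1)))).exists
  have hqQ : Q ≤ q := (le_max_left _ _).trans hq
  have hqq0 : q0 ≤ q := (le_max_left _ _).trans ((le_max_right _ _).trans hq)
  have hq1 : 1 ≤ q := (le_max_right _ _).trans ((le_max_right _ _).trans hq)
  have hqR : (0 : ℝ) < q := by exact_mod_cast hq1
  have h2 := (h q hqQ hq1 p).trans_lt hp2
  rw [pow_succ, div_lt_div_iff₀ (by positivity) (by positivity)] at h2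
  have h3 : (q : ℝ) * c < 1 := by
    have h4 : (q : ℝ) ^ n * (q * c) < (q : ℝ) ^ n * 1 := by nlinarith
    exact lt_of_mul_lt_mul_left h4 (by positivity)
  have h4 : 1 < (q0 : ℝ) * c := by
    rw [div_lt_iff₀ hc] at hq0
    exact hq0
  have h5 : (q0 : ℝ) ≤ q := by exact_mod_cast hqq0
  nlinarith

theorem irr_e : Irrational (Real.exp 1) := by
  rintro ⟨r, hr⟩
  obtain ⟨c, hc, h⟩ := Pool.Agent.H43R2.Cplx.exp2_e 1 one_pos
  have h1 := h r.den r.den_pos r.num
  have h2 : (r.den : ℝ) * Real.exp 1 - r.num = 0 := by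
    rw [← hr]
    have h3 : (r : ℝ) = r.num / r.den := by exact_mod_cast (Rat.num_div_den r).symm
    have h4 : (r.den : ℝ) ≠ 0 := by exact_mod_cast r.den_nz
    rw [h3]
    field_simp
    ring
  rw [h2, abs_zero, mul_zero] at h1
  linarith

theorem nl_e : ¬ Liouville (Real.exp 1) := by
  obtain ⟨c, hc, h⟩ := Pool.Agent.H43R2.Cplx.exp2_e 1 one_pos
  refine not_liouville_of (n := 3) (Q := 1) hc ?_
  intro q _ hq p
  have hq0 : (0 : ℝ) < q := by exact_mod_cast hq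
  have h1 := h q hq p
  have h2 : |(q : ℝ) * Real.exp 1 - p| = q * |Real.exp 1 - p / q| := by
    rw [← abs_of_pos hq0, ← abs_mul, abs_of_pos hq0]
    congr 1
    field_simp
  have h3 : (q : ℝ) ^ (1 + 1 : ℝ) = (q : ℝ) ^ 2 := by
    rw [show (1 + 1 : ℝ) = ((2 : ℕ) : ℝ) by norm_num, Real.rpow_natCast]
  rw [h2, h3] at h1
  rw [div_le_iff₀ (by positivity)]
  calc c ≤ _ := h1
    _ = _ := by ring

theorem nl_pi : ¬ Liouville Real.pi := by
  obtain ⟨q0, h⟩ := Pool.Agent.H326R2.Pi.main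
  refine not_liouville_of (n := 7) (Q := q0) one_pos ?_
  intro q hqq hq p
  have hq0 : (0 : ℝ) < q := by exact_mod_cast hq
  have hq1 : (1 : ℝ) ≤ q := by exact_mod_cast hq
  refine le_trans ?_ (h q hqq p)
  have h1 : (1 : ℝ) / (q : ℝ) ^ 7 = (q : ℝ) ^ (-(7 : ℝ)) := by
    rw [Real.rpow_neg hq0.le, one_div, show (7 : ℝ) = ((7 : ℕ) : ℝ) by norm_num,
      Real.rpow_natCast]
  rw [h1]
  exact Real.rpow_le_rpow_of_exponent_le hq1 (by norm_num)

theorem nl_sqrt : ¬ Liouville √2 := by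
  intro h
  apply h.transcendental
  refine ⟨Polynomial.X ^ 2 - Polynomial.C 2, ?_, ?_⟩
  · exact Polynomial.X_pow_sub_C_ne_zero (by norm_num) 2
  · rw [map_sub, map_pow, Polynomial.aeval_X, Polynomial.aeval_C, Real.sq_sqrt (by norm_num)]
    simp

end Pool.Agent.Q263.CM
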